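import Mathlib

set_option autoImplicit false

namespace Pool.MP_d56194_co

open Finset

/-- a nonzero direction supported on `F` satisfying fewer than `|F|` linear conditions -/
theorem exists_direction {P C : Type} [Fintype P] [DecidableEq P] (F : Finset P)
    (cons : Finset C) (L : C → P → ℝ) (h : cons.card < F.card) :
    ∃ δ : P → ℝ, (∀ p, p ∉ F → δ p = 0) ∧ (∃ p ∈ F, δ p ≠ 0) ∧
      ∀ c ∈ cons, ∑ p, L c p * δ p = 0 := by
  classical
  let Λ : (F → ℝ) →ₗ[ℝ] (cons → ℝ) :=
    { toFun := fun v c => ∑ p : F, L c.1 p.1 * v p
      map_add' := by
        intro v v'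
        ext c
        simp only [Pi.add_apply, mul_add, Finset.sum_add_distrib]
      map_smul' := by
        intro a v
        ext c
        simp only [Pi.smul_apply, smul_eq_mul, RingHom.id_apply, Finset.mul_sum]
        apply Finset.sum_congr rfl
        intro p _
        ring }
  have hker : LinearMap.ker Λ ≠ ⊥ := by
    apply LinearMap.ker_ne_bot_of_finrank_lt
    rw [Module.finrank_fintype_fun_eq_card, Module.finrank_fintype_fun_eq_card,
      Fintype.card_coe, Fintype.card_coe]
    exact h
  obtain ⟨v, hv, hv0⟩ := Submodule.exists_mem_ne_zero_of_ne_bot hker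
  rw [LinearMap.mem_ker] at hv
  refine ⟨fun p => if hp : p ∈ F then v ⟨p, hp⟩ else 0, ?_, ?_, ?_⟩
  · intro p hp
    simp [hp]
  · by_contra hcon
    push Not at hcon
    apply hv0
    ext ⟨p, hp⟩
    have := hcon p hp
    rw [dif_pos hp] at this
    simpa using this
  · intro c hc
    have h1 := congrFun hv ⟨c, hc⟩
    have h2 : ∑ p : F, L c p.1 * v p = 0 := h1
    refine Eq.trans ?_ h2
    rw [← Finset.sum_subset (Finset.subset_univ F)]
    · rw [← Finset.sum_attach]
      apply Finset.sum_congr rfl
      intro p _
      simp only
      rw [dif_pos p.2]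
    · intro p _ hp
      simp only
      rw [dif_neg hp, mul_zero]

/-- Beck and Fiala rounding of a fractional assignment: every pair lies in at most three
constraints. -/
theorem bf_round {E J R : Type} [Fintype E] [Fintype J] [Fintype R] [DecidableEq E]
    [DecidableEq J] [DecidableEq R] (S : R → Finset (E × J))
    (hS : ∀ p, (univ.filter (fun r => p ∈ S r)).card ≤ 3) (N : ℕ) :
    ∀ (y : E × J → ℝ), (univ.filter (fun p => 0 < y p)).card ≤ N → (∀ p, 0 ≤ y p) →
      (∀ e, ∑ j, y (e, j) = 1) →
      ∃ φ : E → J, (∀ e, 0 < y (e, φ e)) ∧
        ∀ r, |((univ.filter (fun e => (e, φ e) ∈ S r)).card : ℝ) - ∑ p ∈ S r, y p| ≤ 6 := by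
  classical
  induction N with
  | zero =>
    intro y hN h0 h1
    have hz : ∀ p, y p = 0 := by
      intro p
      by_contra hne
      have hp : 0 < y p := lt_of_le_of_ne (h0 p) (Ne.symm hne)
      have h2 : p ∈ univ.filter (fun p => 0 < y p) := by simp [hp]
      have h3 := Finset.card_pos.mpr ⟨p, h2⟩
      omega
    have hE : IsEmpty E := by
      constructor
      intro e
      have := h1 e
      rw [Finset.sum_congr rfl (fun j _ => hz (e, j))] at this
      simp at this
    refine ⟨fun e => (hE.false e).elim, fun e => (hE.false e).elim, ?_⟩
    intro r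
    have hc : (univ : Finset E) = ∅ := Finset.univ_eq_empty
    rw [hc]
    rw [Finset.sum_congr rfl (fun p _ => hz p)]
    simp
  | succ N ih =>
    intro y hN h0 h1
    -- basic facts
    have hle1 : ∀ p, y p ≤ 1 := by
      rintro ⟨e, j⟩
      rw [← h1 e]
      exact Finset.single_le_sum (f := fun j => y (e, j)) (fun j _ => h0 (e, j))
        (Finset.mem_univ j)
    have hpos : ∀ e, ∃ j, 0 < y (e, j) := by
      intro e
      by_contra hcon
      push Not at hcon
      have := h1 e
      rw [Finset.sum_eq_zero (fun j _ => le_antisymm (hcon j) (h0 (e, j)))] at this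
      norm_num at this
    have hone : ∀ e j, y (e, j) = 1 → ∀ j', j' ≠ j → y (e, j') = 0 := by
      intro e j hj j' hne
      have h2 := h1 e
      have h3 : y (e, j) + y (e, j') ≤ ∑ j, y (e, j) := by
        rw [← Finset.sum_pair (f := fun j => y (e, j)) hne.symm]
        exact Finset.sum_le_sum_of_subset_of_nonneg (Finset.subset_univ _)
          (fun j _ _ => h0 (e, j))
      have := h0 (e, j')
      linarith
    -- the count of a supported assignment
    have hcount : ∀ (φ : E → J) (r : R),
        ((univ.filter (fun e => (e, φ e) ∈ S r)).card : ℝ) =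
          ∑ p ∈ S r, if φ p.1 = p.2 then (1 : ℝ) else 0 := by
      intro φ r
      rw [← Finset.sum_filter, Finset.sum_const, nsmul_eq_mul, mul_one]
      congr 1
      apply Finset.card_bij (fun e _ => (e, φ e))
      · intro e he
        rw [Finset.mem_filter] at he ⊢
        exact ⟨he.2, rfl⟩
      · intro e _ e' _ h
        exact (Prod.mk.inj h).1
      · rintro ⟨e, j⟩ hp
        rw [Finset.mem_filter] at hp
        simp only at hp
        obtain ⟨hp1, hp2⟩ := hp
        subst hp2
        exact ⟨e, by simp [hp1], rfl⟩
    set Fr := univ.filter (fun p => 0 < y p ∧ y p < 1) with hFr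
    -- error outside the fractional entries vanishes
    have hterm : ∀ (φ : E → J), (∀ e, 0 < y (e, φ e)) → ∀ p, p ∉ Fr →
        (if φ p.1 = p.2 then (1 : ℝ) else 0) - y p = 0 := by
      intro φ hφ p hp
      obtain ⟨e, j⟩ := p
      rw [hFr, Finset.mem_filter] at hp
      simp only [Finset.mem_univ, true_and, not_and, not_lt] at hp
      simp only
      by_cases hy : 0 < y (e, j)
      · have hy1 : y (e, j) = 1 := le_antisymm (hle1 _) (hp hy)
        have : φ e = j := by
          by_contra hne
          have := hone e j hy1 (φ e) hne
          have := hφ e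
          linarith
        rw [if_pos this, hy1]
        norm_num
      · have hy0 : y (e, j) = 0 := le_antisymm (not_lt.mp hy) (h0 _)
        have : φ e ≠ j := by
          rintro rfl
          exact hy (hφ e)
        rw [if_neg this, hy0]
        norm_num
    have hsmall : ∀ (φ : E → J), (∀ e, 0 < y (e, φ e)) → ∀ r,
        ((S r) ∩ Fr).card ≤ 6 →
        |((univ.filter (fun e => (e, φ e) ∈ S r)).card : ℝ) - ∑ p ∈ S r, y p| ≤ 6 := by
      intro φ hφ r hr
      rw [hcount φ r, ← Finset.sum_sub_distrib]
      have e1 : ∑ p ∈ S r, ((if φ p.1 = p.2 then (1 : ℝ) else 0) - y p) =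
          ∑ p ∈ S r ∩ Fr, ((if φ p.1 = p.2 then (1 : ℝ) else 0) - y p) := by
        symm
        apply Finset.sum_subset Finset.inter_subset_left
        intro p hp hp'
        apply hterm φ hφ
        intro hpF
        exact hp' (Finset.mem_inter.mpr ⟨hp, hpF⟩)
      rw [e1]
      calc _ ≤ ∑ p ∈ S r ∩ Fr, |(if φ p.1 = p.2 then (1 : ℝ) else 0) - y p| :=
            Finset.abs_sum_le_sum_abs _ _
        _ ≤ ∑ _p ∈ S r ∩ Fr, (1 : ℝ) := by
            apply Finset.sum_le_sum
            intro p _
            have a1 := h0 p
            have a2 := hle1 p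
            rw [abs_le]
            split_ifs <;> constructor <;> linarith
        _ = ((S r ∩ Fr).card : ℝ) := by simp
        _ ≤ 6 := by exact_mod_cast hr
    by_cases hFe : Fr = ∅
    · choose φ hφ using hpos
      refine ⟨φ, hφ, fun r => hsmall φ hφ r ?_⟩
      rw [hFe]
      simp
    · -- the direction
      have hFpos : 0 < Fr.card := Finset.card_pos.mpr (Finset.nonempty_iff_ne_empty.mpr hFe)
      set Kp := univ.filter (fun r => 7 ≤ ((S r) ∩ Fr).card) with hKp
      set Ec := Fr.image Prod.fst with hEc
      have hK : 7 * Kp.card ≤ 3 * Fr.card := by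
        calc 7 * Kp.card = ∑ _r ∈ Kp, 7 := by
              rw [Finset.sum_const, smul_eq_mul, mul_comm]
          _ ≤ ∑ r ∈ Kp, ((S r) ∩ Fr).card := by
              apply Finset.sum_le_sum
              intro r hr
              rw [hKp, Finset.mem_filter] at hr
              exact hr.2
          _ ≤ ∑ r, ((S r) ∩ Fr).card :=
              Finset.sum_le_sum_of_subset (Finset.subset_univ _)
          _ = ∑ r, ∑ p ∈ Fr, if p ∈ S r then 1 else 0 := by
              apply Finset.sum_congr rfl
              intro r _
              rw [← Finset.card_filter]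
              congr 1
              ext p
              simp only [Finset.mem_inter, Finset.mem_filter]
              tauto
          _ = ∑ p ∈ Fr, ∑ r, if p ∈ S r then 1 else 0 := Finset.sum_comm
          _ ≤ ∑ _p ∈ Fr, 3 := by
              apply Finset.sum_le_sum
              intro p _
              rw [← Finset.card_filter]
              exact hS p
          _ = 3 * Fr.card := by rw [Finset.sum_const, smul_eq_mul, mul_comm]
      have hE : 2 * Ec.card ≤ Fr.card := by
        have h2 : ∀ e ∈ Ec, 2 ≤ (Fr.filter (fun p => p.1 = e)).card := by
          intro e he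
          rw [hEc, Finset.mem_image] at he
          obtain ⟨⟨e', j⟩, hp, rfl⟩ := he
          simp only
          rw [hFr, Finset.mem_filter] at hp
          obtain ⟨_, hy0, hy1⟩ := hp
          have hex : ∃ j', j' ≠ j ∧ 0 < y (e', j') := by
            by_contra hcon
            push Not at hcon
            have h3 := h1 e'
            rw [Finset.sum_eq_single j] at h3
            · linarith
            · intro j' _ hne
              exact le_antisymm (hcon j' hne) (h0 _)
            · intro h; exact absurd (Finset.mem_univ _) h
          obtain ⟨j', hne, hj'⟩ := hex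
          have hlt : y (e', j') < 1 := by
            rcases lt_or_eq_of_le (hle1 (e', j')) with h | h
            · exact h
            · have := hone e' j' h j hne.symm
              linarith
          have hsub : ({(e', j), (e', j')} : Finset (E × J)) ⊆
              Fr.filter (fun p => p.1 = e') := by
            intro p hp
            rw [Finset.mem_insert, Finset.mem_singleton] at hp
            rw [Finset.mem_filter, hFr, Finset.mem_filter]
            rcases hp with rfl | rfl
            · exact ⟨⟨Finset.mem_univ _, hy0, hy1⟩, rfl⟩
            · exact ⟨⟨Finset.mem_univ _, hj', hlt⟩, rfl⟩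
          calc 2 = ({(e', j), (e', j')} : Finset (E × J)).card := by
                rw [Finset.card_pair]
                intro h
                exact hne (Prod.mk.inj h).2.symm
            _ ≤ _ := Finset.card_le_card hsub
        have h3 : Fr.card = ∑ e ∈ Ec, (Fr.filter (fun p => p.1 = e)).card := by
          apply Finset.card_eq_sum_card_fiberwise
          intro p hp
          rw [hEc]
          exact Finset.mem_coe.mpr (Finset.mem_image_of_mem _ hp)
        rw [h3]
        calc 2 * Ec.card = ∑ _e ∈ Ec, 2 := by rw [Finset.sum_const, smul_eq_mul, mul_comm]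
          _ ≤ _ := Finset.sum_le_sum h2
      set cons : Finset (E ⊕ R) := Ec.disjSum Kp with hcons
      have hclt : cons.card < Fr.card := by
        rw [hcons, Finset.card_disjSum]
        omega
      obtain ⟨δ, hδ0, ⟨p1, hp1, hδ1⟩, hδc⟩ := exists_direction Fr cons
        (fun c p => Sum.elim (fun e => if p.1 = e then (1 : ℝ) else 0)
          (fun r => if p ∈ S r then (1 : ℝ) else 0) c) hclt
      have hrow : ∀ e, ∑ j, δ (e, j) = 0 := by
        intro e
        by_cases he : e ∈ Ec
        · have h2 := hδc (Sum.inl e) (by rw [hcons]; exact Finset.inl_mem_disjSum.mpr he)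
          simp only [Sum.elim_inl] at h2
          rw [Fintype.sum_prod_type] at h2
          rw [Finset.sum_eq_single e] at h2
          · simpa using h2
          · intro e' _ hne
            simp [hne]
          · intro h; exact absurd (Finset.mem_univ _) h
        · apply Finset.sum_eq_zero
          intro j _
          apply hδ0
          intro hp
          exact he (by rw [hEc]; exact Finset.mem_image_of_mem Prod.fst hp)
      have hcon : ∀ r ∈ Kp, ∑ p ∈ S r, δ p = 0 := by
        intro r hr
        have h2 := hδc (Sum.inr r) (by rw [hcons]; exact Finset.inr_mem_disjSum.mpr hr)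
        simp only [Sum.elim_inr] at h2
        rw [← h2]
        simp only [ite_mul, one_mul, zero_mul]
        rw [← Finset.sum_filter]
        apply Finset.sum_congr _ (fun _ _ => rfl)
        ext p
        simp
      -- a negative entry
      set Ng := univ.filter (fun p => δ p < 0) with hNg
      have hNgne : Ng.Nonempty := by
        by_contra hcon2
        rw [Finset.not_nonempty_iff_eq_empty] at hcon2
        have hge : ∀ p, 0 ≤ δ p := by
          intro p
          by_contra hlt
          push Not at hlt
          have : p ∈ Ng := by rw [hNg, Finset.mem_filter]; exact ⟨Finset.mem_univ _, hlt⟩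
          rw [hcon2] at this
          exact absurd this (Finset.notMem_empty p)
        have h2 := hrow p1.1
        rw [Finset.sum_eq_zero_iff_of_nonneg (fun j _ => hge _)] at h2
        exact hδ1 (h2 p1.2 (Finset.mem_univ _))
      obtain ⟨p0, hp0, hmin⟩ := Finset.exists_min_image Ng (fun p => y p / (-δ p)) hNgne
      have hp0n : δ p0 < 0 := by
        rw [hNg, Finset.mem_filter] at hp0
        exact hp0.2
      have hp0F : p0 ∈ Fr := by
        by_contra h
        have := hδ0 p0 h
        linarith
      have hp0y : 0 < y p0 := by
        rw [hFr, Finset.mem_filter] at hp0F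
        exact hp0F.2.1
      set t := y p0 / (-δ p0) with ht
      have htpos : 0 ≤ t := div_nonneg (h0 p0) (by linarith)
      set y' : E × J → ℝ := fun p => y p + t * δ p with hy'
      have hy'0 : ∀ p, 0 ≤ y' p := by
        intro p
        simp only [hy']
        by_cases hn : δ p < 0
        · have hpN : p ∈ Ng := by rw [hNg, Finset.mem_filter]; exact ⟨Finset.mem_univ _, hn⟩
          have h2 := hmin p hpN
          have h3 : t ≤ y p / (-δ p) := h2
          rw [le_div_iff₀ (by linarith)] at h3
          linarith
        · push Not at hn
          have := h0 p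
          have := mul_nonneg htpos hn
          linarith
      have hy'1 : ∀ e, ∑ j, y' (e, j) = 1 := by
        intro e
        simp only [hy']
        rw [Finset.sum_add_distrib, ← Finset.mul_sum, hrow e, h1 e]
        ring
      have hsupp : ∀ p, 0 < y' p → 0 < y p := by
        intro p hp
        by_contra hcon2
        have hy0 : y p = 0 := le_antisymm (not_lt.mp hcon2) (h0 p)
        have hpF : p ∉ Fr := by
          rw [hFr, Finset.mem_filter]
          rintro ⟨_, h, _⟩
          exact hcon2 h
        simp only [hy'] at hp
        rw [hy0, hδ0 p hpF] at hp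
        simp at hp
      have hp0z : y' p0 = 0 := by
        simp only [hy', ht]
        have : δ p0 ≠ 0 := by linarith
        field_simp
        ring
      have hcard : (univ.filter (fun p => 0 < y' p)).card ≤ N := by
        have hss : univ.filter (fun p => 0 < y' p) ⊂ univ.filter (fun p => 0 < y p) := by
          rw [Finset.ssubset_iff_of_subset]
          · refine ⟨p0, by simp [hp0y], ?_⟩
            rw [Finset.mem_filter, hp0z]
            rintro ⟨_, h⟩
            exact lt_irrefl _ h
          · intro p hp
            rw [Finset.mem_filter] at hp ⊢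
            exact ⟨hp.1, hsupp p hp.2⟩
        have := Finset.card_lt_card hss
        omega
      obtain ⟨φ, hφ1, hφ2⟩ := ih y' hcard hy'0 hy'1
      have hφ : ∀ e, 0 < y (e, φ e) := fun e => hsupp _ (hφ1 e)
      refine ⟨φ, hφ, fun r => ?_⟩
      by_cases hr : r ∈ Kp
      · have h2 := hφ2 r
        have h3 : ∑ p ∈ S r, y' p = ∑ p ∈ S r, y p := by
          simp only [hy']
          rw [Finset.sum_add_distrib, ← Finset.mul_sum, hcon r hr]
          ring
        rw [h3] at h2
        exact h2
      · apply hsmall φ hφ r
        rw [hKp, Finset.mem_filter] at hr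
        simp only [Finset.mem_univ, true_and, not_le] at hr
        omega

end Pool.MP_d56194_co
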