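import Mathlib
import Pool.Agent.Lib.MP_d56194_co.F.F6

set_option autoImplicit false

namespace Pool.MP_d56194_co

open Finset

/-- the minimum cut value at level `k` -/
noncomputable def gcut (m : ℕ) (lam : ℕ → ℕ) (k : ℕ) : ℕ :=
  sInf (Set.range (fun ab : ℕ × ℕ => ct m lam 1 k ab.1 ab.2))

section

variable (m : ℕ) (lam : ℕ → ℕ)

theorem gcut_le (k a b : ℕ) : gcut m lam k ≤ ct m lam 1 k a b :=
  Nat.sInf_le ⟨(a, b), rfl⟩

theorem gcut_attained (k : ℕ) : ∃ a b, gcut m lam k = ct m lam 1 k a b := by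
  have h : (Set.range (fun ab : ℕ × ℕ => ct m lam 1 k ab.1 ab.2)).Nonempty :=
    ⟨_, (0, 0), rfl⟩
  obtain ⟨⟨a, b⟩, hab⟩ := Nat.sInf_mem h
  exact ⟨a, b, hab.symm⟩

theorem ct_add (k d a b : ℕ) : ct m lam 1 (k + d) a b = ct m lam 1 k a b + d * (a + b) := by
  unfold ct
  ring

theorem gcut_mono (k d : ℕ) : gcut m lam k ≤ gcut m lam (k + d) := by
  obtain ⟨a, b, h⟩ := gcut_attained m lam (k + d)
  rw [h, ct_add]
  exact (gcut_le m lam k a b).trans (Nat.le_add_right _ _)

theorem gcut_mul (k' k : ℕ) (h : k' ≤ k) : k' * gcut m lam k ≤ k * gcut m lam k' := by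
  obtain ⟨a, b, hab⟩ := gcut_attained m lam k'
  have h1 := gcut_le m lam k a b
  calc k' * gcut m lam k ≤ k' * ct m lam 1 k a b := Nat.mul_le_mul_left _ h1
    _ ≤ k * ct m lam 1 k' a b := by
        unfold ct
        have : k' * ∑ i ∈ Ico a m, 1 * (lam i - b) ≤ k * ∑ i ∈ Ico a m, 1 * (lam i - b) :=
          Nat.mul_le_mul_right _ h
        nlinarith
    _ = k * gcut m lam k' := by rw [hab]

theorem gcut_le_total (k : ℕ) : gcut m lam k ≤ ∑ i ∈ range m, lam i := by
  have h := gcut_le m lam k 0 0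
  unfold ct at h
  simpa using h

theorem gcut_ge (k : ℕ) (h : k ≤ ∑ i ∈ range m, lam i) : k ≤ gcut m lam k := by
  obtain ⟨a, b, hab⟩ := gcut_attained m lam k
  rw [hab]
  by_cases h0 : a + b = 0
  · have ha : a = 0 := by omega
    have hb : b = 0 := by omega
    subst ha hb
    unfold ct
    simpa using h
  · unfold ct
    have : k * 1 ≤ k * (a + b) := Nat.mul_le_mul_left _ (by omega)
    omega

theorem gcut_zero : gcut m lam 0 = 0 := by
  have h := gcut_le m lam 0 m 0
  unfold ct at h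
  simpa using h

theorem gcut_sub (k d : ℕ) : gcut m lam (k + d) ≤ gcut m lam k + d * gcut m lam 1 := by
  obtain ⟨a, b, hab⟩ := gcut_attained m lam k
  obtain ⟨a1, b1, hab1⟩ := gcut_attained m lam 1
  rcases Nat.eq_zero_or_pos d with hd | hd
  · subst hd; simp
  by_cases hle : a + b ≤ gcut m lam 1
  · have h1 := gcut_le m lam (k + d) a b
    rw [ct_add, ← hab] at h1
    have : d * (a + b) ≤ d * gcut m lam 1 := Nat.mul_le_mul_left _ hle
    omega
  · push Not at hle
    have h1 := gcut_le m lam (k + d) a1 b1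
    have hw : gcut m lam 1 = (a1 + b1) + ∑ i ∈ Ico a1 m, 1 * (lam i - b1) := by
      rw [hab1]; unfold ct; ring
    set F1 := ∑ i ∈ Ico a1 m, 1 * (lam i - b1) with hF1
    have h2 : ct m lam 1 (k + d) a1 b1 = (k + d) * (a1 + b1) + F1 := rfl
    have h3 : gcut m lam k = k * (a + b) + ∑ i ∈ Ico a m, 1 * (lam i - b) := by
      rw [hab]; rfl
    rcases Nat.eq_zero_or_pos k with hk | hk
    · subst hk
      rw [gcut_zero]
      have : d * gcut m lam 1 = d * (a1 + b1) + d * F1 := by rw [hw]; ring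
      have h4 : 1 * F1 ≤ d * F1 := Nat.mul_le_mul_right _ hd
      rw [h2] at h1
      rw [Nat.zero_add] at h1 ⊢
      omega
    · have h4 : k * gcut m lam 1 ≤ k * (a + b) := Nat.mul_le_mul_left _ hle.le
      have h5 : k * gcut m lam 1 = k * (a1 + b1) + k * F1 := by rw [hw]; ring
      have h6 : 1 * F1 ≤ k * F1 := Nat.mul_le_mul_right _ hk
      have h7 : d * gcut m lam 1 = d * (a1 + b1) + d * F1 := by rw [hw]; ring
      have h8 : (k + d) * (a1 + b1) = k * (a1 + b1) + d * (a1 + b1) := by ring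
      omega

theorem gcut_step (hanti : Antitone lam) (hm : ∀ i, m ≤ i → lam i = 0) (k : ℕ) :
    gcut m lam k + gcut m lam 1 ≤ gcut m lam (k + 1) + k := by
  classical
  set g := gcut m lam (k + 1) with hg
  -- an optimal cut with `a + b` maximal
  set Q : ℕ → Prop := fun s => ∃ a b, a + b = s ∧ g = ct m lam 1 (k + 1) a b with hQ
  have hQb : ∀ s, Q s → s ≤ g := by
    rintro s ⟨a, b, rfl, h⟩
    rw [h]
    unfold ct
    have : 1 * (a + b) ≤ (k + 1) * (a + b) := Nat.mul_le_mul_right _ (by omega)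
    omega
  obtain ⟨a0, b0, h0⟩ := gcut_attained m lam (k + 1)
  have hQ0 : Q (a0 + b0) := ⟨a0, b0, rfl, h0⟩
  have hspec := Nat.findGreatest_spec (P := Q) (hQb _ hQ0) hQ0
  have hmax : ∀ s, Q s → s ≤ Nat.findGreatest Q g :=
    fun s hs => Nat.le_findGreatest (hQb s hs) hs
  obtain ⟨a, b, hs, hab⟩ := hspec
  have hrow : lam a ≤ b + k := by
    by_contra hcon
    push Not at hcon
    have ham : a < m := by
      by_contra h
      have := hm a (by omega)
      omega
    have h1 : ct m lam 1 (k + 1) (a + 1) b + lam a = ct m lam 1 (k + 1) a b + (k + 1) + b := by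
      unfold ct
      have h2 : ∑ i ∈ Ico a m, 1 * (lam i - b) = 1 * (lam a - b) +
          ∑ i ∈ Ico (a + 1) m, 1 * (lam i - b) := by
        rw [Finset.sum_eq_sum_Ico_succ_bot ham]
      have h3 : (k + 1) * (a + 1 + b) = (k + 1) * (a + b) + (k + 1) := by ring
      omega
    have h2 := gcut_le m lam (k + 1) (a + 1) b
    have h3 : Q (a + 1 + b) := ⟨a + 1, b, rfl, by omega⟩
    have h4 := hmax _ h3
    omega
  have h1 := gcut_le m lam 1 a (b + k)
  have h2 : ct m lam 1 1 a (b + k) = a + b + k := by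
    unfold ct
    have : ∑ i ∈ Ico a m, 1 * (lam i - (b + k)) = 0 := by
      apply Finset.sum_eq_zero
      intro i hi
      rw [Finset.mem_Ico] at hi
      have := hanti hi.1
      have h5 : lam i - (b + k) = 0 := by omega
      rw [h5, Nat.mul_zero]
    rw [this]
    ring
  have h3 := gcut_le m lam k a b
  have h4 := ct_add m lam k 1 a b
  omega

/-- iterated lower bound for the increments -/
theorem gcut_steps (hanti : Antitone lam) (hm : ∀ i, m ≤ i → lam i = 0) (k d : ℕ) :
    (gcut m lam k : ℤ) + d * gcut m lam 1 ≤ gcut m lam (k + d) + d * (k + d : ℤ) := by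
  induction d with
  | zero => simp
  | succ d ih =>
    have h := gcut_step m lam hanti hm (k + d)
    have h' : (gcut m lam (k + d) : ℤ) + gcut m lam 1 ≤ gcut m lam (k + d + 1) + (k + d : ℤ) := by
      exact_mod_cast h
    have e : k + (d + 1) = k + d + 1 := by ring
    rw [e]
    push_cast
    have h2 : (0 : ℤ) ≤ k := by positivity
    have h3 : (0 : ℤ) ≤ d := by positivity
    nlinarith

/-- `g k ≥ k w - k^2/2` -/
theorem gcut_lower (hanti : Antitone lam) (hm : ∀ i, m ≤ i → lam i = 0) (k : ℕ) :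
    2 * k * gcut m lam 1 ≤ 2 * gcut m lam k + k * k := by
  induction k with
  | zero => simp
  | succ k ih =>
    have h := gcut_step m lam hanti hm k
    nlinarith

end

end Pool.MP_d56194_co
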