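import Mathlib
import Pool.Agent.Lib.MP_d56194_co.D1

set_option autoImplicit false

namespace Pool.MP_d56194_co

open Finset

theorem antitone_avg (q : ℕ) (a : ℕ → ℕ) (h : ∀ i j, i ≤ j → j < q → a j ≤ a i) (r : ℕ)
    (hr : r ≤ q) : r * ∑ i ∈ range q, a i ≤ q * ∑ i ∈ range r, a i := by
  rcases Nat.eq_zero_or_pos (q - r) with h0 | h0
  · have : q = r := by omega
    subst this
    exact le_rfl
  have h1 : r * a r ≤ ∑ i ∈ range r, a i := by
    calc r * a r = ∑ _i ∈ range r, a r := by
          rw [Finset.sum_const, Finset.card_range, smul_eq_mul]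
      _ ≤ _ := by
          apply Finset.sum_le_sum
          intro i hi
          rw [Finset.mem_range] at hi
          exact h i r hi.le (by omega)
  have h2 : ∑ i ∈ Ico r q, a i ≤ (q - r) * a r := by
    calc ∑ i ∈ Ico r q, a i ≤ ∑ _i ∈ Ico r q, a r := by
          apply Finset.sum_le_sum
          intro i hi
          rw [Finset.mem_Ico] at hi
          exact h r i hi.1 hi.2
      _ = (q - r) * a r := by rw [Finset.sum_const, Nat.card_Ico, smul_eq_mul]
  have h3 := Finset.sum_range_add_sum_Ico a hr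
  rw [← h3]
  obtain ⟨d, hd⟩ : ∃ d, q = r + d := ⟨q - r, by omega⟩
  have h4 : q - r = d := by omega
  rw [h4] at h2
  rw [hd] at h2 ⊢
  nlinarith [Nat.mul_le_mul_left r h2, Nat.mul_le_mul_left d h1]

/-- Koenig's theorem with the colour classes sorted by size. -/
theorem koenig_sorted {E A B : Type} [Fintype E] [DecidableEq E] [DecidableEq A]
    [DecidableEq B] [Fintype A] [Fintype B] (f : E → A) (g : E → B) (q : ℕ)
    (hf : ∀ a, (univ.filter (fun e => f e = a)).card ≤ q)
    (hg : ∀ b, (univ.filter (fun e => g e = b)).card ≤ q) :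
    ∃ κ : E → ℕ, (∀ e, κ e < q) ∧ (∀ e e', f e = f e' → κ e = κ e' → e = e') ∧
      (∀ e e', g e = g e' → κ e = κ e' → e = e') ∧
      ∀ r, r ≤ q → r * Fintype.card E ≤ q * (univ.filter (fun e => κ e < r)).card := by
  classical
  obtain ⟨κ, h1, h2, h3⟩ := koenig f g q hf hg
  -- sizes of the classes
  set sz : Fin q → ℕ := fun i => (univ.filter (fun e => κ e = i.1)).card with hsz
  set σ : Equiv.Perm (Fin q) := Tuple.sort (fun i => OrderDual.toDual (sz i)) with hσ
  have hmono : ∀ i j : Fin q, i ≤ j → sz (σ j) ≤ sz (σ i) := by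
    intro i j hij
    have := Tuple.monotone_sort (fun i => OrderDual.toDual (sz i)) hij
    exact this
  set κ' : E → ℕ := fun e => (σ.symm ⟨κ e, h1 e⟩).1 with hκ'
  have hinj : ∀ e e', κ' e = κ' e' → κ e = κ e' := by
    intro e e' h
    have h5 := σ.symm.injective (Fin.ext h)
    exact congrArg Fin.val h5
  refine ⟨κ', fun e => (σ.symm ⟨κ e, h1 e⟩).2, fun e e' hh hk => h2 e e' hh (hinj e e' hk),
    fun e e' hh hk => h3 e e' hh (hinj e e' hk), ?_⟩
  intro r hr
  set a : ℕ → ℕ := fun i => (univ.filter (fun e => κ' e = i)).card with ha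
  have ha' : ∀ (i : ℕ) (hi : i < q), a i = sz (σ ⟨i, hi⟩) := by
    intro i hi
    simp only [ha, hsz]
    congr 1
    ext e
    simp only [Finset.mem_filter, Finset.mem_univ, true_and, hκ']
    constructor
    · intro h
      have h5 : σ.symm ⟨κ e, h1 e⟩ = ⟨i, hi⟩ := Fin.ext h
      rw [Equiv.symm_apply_eq] at h5
      rw [← h5]
    · intro h
      have h5 : (⟨κ e, h1 e⟩ : Fin q) = σ ⟨i, hi⟩ := Fin.ext h
      rw [h5, Equiv.symm_apply_apply]
  have hanti : ∀ i j, i ≤ j → j < q → a j ≤ a i := by
    intro i j hij hj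
    rw [ha' j hj, ha' i (by omega)]
    exact hmono _ _ (by exact hij)
  have hsum : ∀ s, (univ.filter (fun e => κ' e < s)).card = ∑ i ∈ range s, a i := by
    intro s
    have hmap : ∀ e ∈ univ.filter (fun e => κ' e < s), κ' e ∈ range s := by
      intro e he
      rw [Finset.mem_filter] at he
      exact Finset.mem_range.mpr he.2
    rw [Finset.card_eq_sum_card_fiberwise hmap]
    apply Finset.sum_congr rfl
    intro i hi
    rw [Finset.mem_range] at hi
    simp only [ha]
    congr 1
    ext e
    simp only [Finset.mem_filter, Finset.mem_univ, true_and]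
    constructor
    · rintro ⟨_, h⟩; exact h
    · rintro h; exact ⟨by omega, h⟩
  have htot : Fintype.card E = ∑ i ∈ range q, a i := by
    rw [← hsum q, ← Finset.card_univ]
    congr 1
    ext e
    simp only [Finset.mem_filter, Finset.mem_univ, true_and, true_iff]
    exact (σ.symm ⟨κ e, h1 e⟩).2
  rw [htot, hsum r]
  exact antitone_avg q a hanti r hr

end Pool.MP_d56194_co
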