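import Mathlib
import Pool.Agent.Lib.MP_d56194_co.F.F7
import Pool.Agent.Lib.MP_d56194_co.G.G2

set_option autoImplicit false

namespace Pool.MP_d56194_co

open Finset

theorem sum_Ico_groups (s : ℕ → ℕ) (h0 : s 0 = 0) (hs : ∀ j, s j ≤ s (j + 1)) (f : ℕ → ℝ)
    (J : ℕ) : ∑ j ∈ range J, ∑ t ∈ Ico (s j) (s (j + 1)), f t = ∑ t ∈ range (s J), f t := by
  induction J with
  | zero => rw [h0]; simp
  | succ J ih =>
    rw [Finset.sum_range_succ, ih, Finset.sum_range_add_sum_Ico f (hs J)]

theorem ct_scale (m : ℕ) (lam : ℕ → ℕ) (q k a b : ℕ) :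
    ct m lam q (q * k) a b = q * ct m lam 1 k a b := by
  unfold ct
  have h : ∑ i ∈ Ico a m, q * (lam i - b) = q * ∑ i ∈ Ico a m, 1 * (lam i - b) := by
    rw [Finset.mul_sum]
    apply Finset.sum_congr rfl
    intro i _
    ring
  rw [h]
  ring

/-- the real solution grouped into blocks of `ℓ j` colours -/
theorem real_groups (m N : ℕ) (lam : ℕ → ℕ) (hanti : Antitone lam)
    (hm : ∀ i, m ≤ i → lam i = 0) (hN : ∀ i, lam i ≤ N) (l : ℕ → ℕ) (hl : ∀ j, 1 ≤ l j) :
    ∃ (T : ℕ) (Y : ℕ → ℕ → ℕ → ℝ), (∀ i x j, 0 ≤ Y i x j) ∧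
      (∀ i x, i < m → x < N → ∑ j ∈ range T, Y i x j = if x < lam i then (1 : ℝ) else 0) ∧
      (∀ i j, i < m → ∑ x ∈ range N, Y i x j ≤ l j) ∧
      (∀ x j, x < N → ∑ i ∈ range m, Y i x j ≤ l j) ∧
      (∀ j, (gcut m lam (∑ i ∈ range j, l i) : ℝ) ≤
        ∑ j' ∈ range j, ∑ i ∈ range m, ∑ x ∈ range N, Y i x j') := by
  classical
  obtain ⟨q, T, A, B, U, hq, hU0, hU1, hU2, hU3, hU4, hcut⟩ := real_sol m N lam hanti hm hN
  have hqR : (0 : ℝ) < q := by exact_mod_cast hq
  set V : ℕ → ℕ → ℕ → ℝ := fun i x t => if t < T then U i x t else 0 with hV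
  have hV0 : ∀ i x t, 0 ≤ V i x t := by
    intro i x t
    simp only [hV]
    split_ifs
    · exact hU0 i x t
    · exact le_rfl
  set K : ℕ → ℕ := fun j => ∑ i ∈ range j, l i with hK
  have hKs : ∀ j, K (j + 1) = K j + l j := by
    intro j
    simp only [hK]
    rw [Finset.sum_range_succ]
  have hK0 : K 0 = 0 := by simp [hK]
  have hKj : ∀ j, j ≤ K j := by
    intro j
    induction j with
    | zero => exact Nat.zero_le _
    | succ j ih => rw [hKs]; have := hl j; omega
  set s : ℕ → ℕ := fun j => q * K j with hs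
  have hs0 : s 0 = 0 := by simp [hs, hK0]
  have hsm : ∀ j, s j ≤ s (j + 1) := by
    intro j
    simp only [hs]
    rw [hKs]
    exact Nat.mul_le_mul_left _ (Nat.le_add_right _ _)
  have hscard : ∀ j, (Ico (s j) (s (j + 1))).card = q * l j := by
    intro j
    rw [Nat.card_Ico]
    simp only [hs]
    rw [hKs, Nat.mul_add]
    omega
  have hsT : T ≤ s T := by
    simp only [hs]
    calc T ≤ K T := hKj T
      _ = 1 * K T := (one_mul _).symm
      _ ≤ q * K T := Nat.mul_le_mul_right _ hq
  -- sums of V
  have hVsum : ∀ i x n, T ≤ n → ∑ t ∈ range n, V i x t = ∑ t ∈ range T, U i x t := by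
    intro i x n hn
    rw [← Finset.sum_subset (Finset.range_subset_range.mpr hn)]
    · apply Finset.sum_congr rfl
      intro t ht
      rw [Finset.mem_range] at ht
      simp only [hV]
      rw [if_pos ht]
    · intro t _ ht
      rw [Finset.mem_range] at ht
      simp only [hV]
      rw [if_neg ht]
  have hVrow : ∀ i t, i < m → ∑ x ∈ range N, V i x t ≤ 1 := by
    intro i t hi
    by_cases ht : t < T
    · simp only [hV, ht, if_true]
      exact hU2 i t hi ht
    · simp only [hV, ht, if_false, Finset.sum_const_zero]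
      norm_num
  have hVcol : ∀ x t, x < N → ∑ i ∈ range m, V i x t ≤ 1 := by
    intro x t hx
    by_cases ht : t < T
    · simp only [hV, ht, if_true]
      exact hU3 x t hx ht
    · simp only [hV, ht, if_false, Finset.sum_const_zero]
      norm_num
  refine ⟨T, fun i x j => (∑ t ∈ Ico (s j) (s (j + 1)), V i x t) / q, ?_, ?_, ?_, ?_, ?_⟩
  · intro i x j
    exact div_nonneg (Finset.sum_nonneg (fun t _ => hV0 i x t)) hqR.le
  · intro i x hi hx
    rw [← Finset.sum_div, sum_Ico_groups s hs0 hsm, hVsum i x (s T) hsT, hU1 i x hi hx]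
    split_ifs
    · exact div_self hqR.ne'
    · exact zero_div _
  · intro i j hi
    rw [← Finset.sum_div, Finset.sum_comm, div_le_iff₀ hqR]
    calc ∑ t ∈ Ico (s j) (s (j + 1)), ∑ x ∈ range N, V i x t
        ≤ ∑ _t ∈ Ico (s j) (s (j + 1)), (1 : ℝ) :=
          Finset.sum_le_sum (fun t _ => hVrow i t hi)
      _ = (l j : ℝ) * q := by
          rw [Finset.sum_const, hscard]
          simp only [nsmul_eq_mul, mul_one]
          push_cast
          ring
  · intro x j hx
    rw [← Finset.sum_div, Finset.sum_comm, div_le_iff₀ hqR]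
    calc ∑ t ∈ Ico (s j) (s (j + 1)), ∑ i ∈ range m, V i x t
        ≤ ∑ _t ∈ Ico (s j) (s (j + 1)), (1 : ℝ) :=
          Finset.sum_le_sum (fun t _ => hVcol x t hx)
      _ = (l j : ℝ) * q := by
          rw [Finset.sum_const, hscard]
          simp only [nsmul_eq_mul, mul_one]
          push_cast
          ring
  · intro j
    have e1 : ∑ j' ∈ range j, ∑ i ∈ range m, ∑ x ∈ range N,
        (∑ t ∈ Ico (s j') (s (j' + 1)), V i x t) / q =
        (∑ i ∈ range m, ∑ x ∈ range N, ∑ t ∈ range (s j), V i x t) / q := by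
      rw [Finset.sum_comm, Finset.sum_div]
      apply Finset.sum_congr rfl
      intro i _
      rw [Finset.sum_comm, Finset.sum_div]
      apply Finset.sum_congr rfl
      intro x _
      rw [← Finset.sum_div, sum_Ico_groups s hs0 hsm]
    rw [e1, le_div_iff₀ hqR]
    by_cases hj : s j < T
    · have e2 : ∑ i ∈ range m, ∑ x ∈ range N, ∑ t ∈ range (s j), V i x t =
          ∑ t ∈ range (s j), ((A t + B t : ℕ) : ℝ) := by
        calc _ = ∑ i ∈ range m, ∑ t ∈ range (s j), ∑ x ∈ range N, V i x t :=
              Finset.sum_congr rfl (fun i _ => Finset.sum_comm)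
          _ = ∑ t ∈ range (s j), ∑ i ∈ range m, ∑ x ∈ range N, V i x t := Finset.sum_comm
          _ = _ := by
              apply Finset.sum_congr rfl
              intro t ht
              rw [Finset.mem_range] at ht
              have htT : t < T := lt_trans ht hj
              rw [← hU4 t htT]
              simp only [hV, htT, if_true]
      rw [e2, ← Nat.cast_sum, hcut (s j) hj]
      have e3 : ct m lam q (s j) (A (s j)) (B (s j)) =
          q * ct m lam 1 (K j) (A (s j)) (B (s j)) := ct_scale m lam q (K j) _ _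
      rw [e3]
      have h4 := gcut_le m lam (K j) (A (s j)) (B (s j))
      have h5 : gcut m lam (K j) * q ≤ q * ct m lam 1 (K j) (A (s j)) (B (s j)) := by
        rw [mul_comm]
        exact Nat.mul_le_mul_left _ h4
      exact_mod_cast h5
    · push Not at hj
      have e2 : ∑ i ∈ range m, ∑ x ∈ range N, ∑ t ∈ range (s j), V i x t =
          ((∑ i ∈ range m, lam i : ℕ) : ℝ) * q := by
        rw [Nat.cast_sum, Finset.sum_mul]
        apply Finset.sum_congr rfl
        intro i hi
        rw [Finset.mem_range] at hi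
        calc ∑ x ∈ range N, ∑ t ∈ range (s j), V i x t
            = ∑ x ∈ range N, if x < lam i then (q : ℝ) else 0 := by
              apply Finset.sum_congr rfl
              intro x hx
              rw [Finset.mem_range] at hx
              rw [hVsum i x (s j) hj, hU1 i x hi hx]
          _ = (lam i : ℝ) * q := by
              have h9 : (range N).filter (fun x => x < lam i) = range (lam i) := by
                ext x
                have := hN i
                simp only [Finset.mem_filter, Finset.mem_range]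
                omega
              rw [← Finset.sum_filter, Finset.sum_const, nsmul_eq_mul, h9,
                Finset.card_range]
      rw [e2]
      have h3 := gcut_le_total m lam (K j)
      have h4 : ((gcut m lam (K j) : ℕ) : ℝ) ≤ ((∑ i ∈ range m, lam i : ℕ) : ℝ) := by
        exact_mod_cast h3
      exact mul_le_mul_of_nonneg_right h4 hqR.le

end Pool.MP_d56194_co
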