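import Mathlib
import Pool.Agent.Lib.MP_d56194_co.G.G1
import Pool.Agent.Lib.MP_d56194_co.G.G3
import Pool.Agent.Lib.MP_d56194_co.G.G4

set_option autoImplicit false

namespace Pool.MP_d56194_co

open Finset

theorem cell_lt (μ : YoungDiagram) (v : ℕ × ℕ) (hv : v ∈ μ.cells) :
    v.1 < μ.colLen 0 ∧ v.2 < μ.rowLen 0 ∧ v.2 < μ.rowLen v.1 := by
  obtain ⟨i, x⟩ := v
  rw [YoungDiagram.mem_cells] at hv
  refine ⟨?_, ?_, YoungDiagram.mem_iff_lt_rowLen.mp hv⟩
  · exact YoungDiagram.mem_iff_lt_colLen.mp (μ.up_left_mem le_rfl (Nat.zero_le _) hv)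
  · exact YoungDiagram.mem_iff_lt_rowLen.mp (μ.up_left_mem (Nat.zero_le _) le_rfl hv)

/-- sums over cells, by rows -/
theorem cell_sum (μ : YoungDiagram) (F : ℕ × ℕ → ℝ) :
    ∑ v ∈ μ.cells, F v = ∑ i ∈ range (μ.colLen 0), ∑ x ∈ range (μ.rowLen 0),
      if x < μ.rowLen i then F (i, x) else 0 := by
  classical
  have h1 : μ.cells = (range (μ.colLen 0) ×ˢ range (μ.rowLen 0)).filter
      (fun v => v.2 < μ.rowLen v.1) := by
    ext v
    rw [Finset.mem_filter, Finset.mem_product, Finset.mem_range, Finset.mem_range]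
    constructor
    · intro hv
      obtain ⟨a, b, c⟩ := cell_lt μ v hv
      exact ⟨⟨a, b⟩, c⟩
    · rintro ⟨_, h⟩
      rw [YoungDiagram.mem_cells]
      exact YoungDiagram.mem_iff_lt_rowLen.mpr h
  rw [h1, Finset.sum_filter, Finset.sum_product]

theorem sum_pairs {E J : Type} [Fintype E] [Fintype J] [DecidableEq E] [DecidableEq J]
    (cond : E → Prop) [DecidablePred cond] (j : J) (y : E × J → ℝ) :
    ∑ p ∈ univ.filter (fun p : E × J => cond p.1 ∧ p.2 = j), y p =
      ∑ e, if cond e then y (e, j) else 0 := by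
  rw [Finset.sum_filter, Fintype.sum_prod_type]
  apply Finset.sum_congr rfl
  intro e _
  by_cases h : cond e
  · simp [h]
  · simp [h]

theorem card_filter_coe (s : Finset (ℕ × ℕ)) (p : ℕ × ℕ → Prop) [DecidablePred p] :
    (s.filter p).card = (univ.filter (fun e : s => p e.1)).card := by
  rw [Finset.card_filter, Finset.card_filter]
  exact (Finset.sum_coe_sort s (fun v => if p v then 1 else 0)).symm

/-- rounding the grouped real solution -/
theorem int_groups (μ : YoungDiagram) (l : ℕ → ℕ) (hl : ∀ j, 1 ≤ l j) :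
    ∃ (φ : μ.cells → ℕ),
      (∀ i j, (univ.filter (fun e : μ.cells => e.1.1 = i ∧ φ e = j)).card ≤ l j + 6) ∧
      (∀ x j, (univ.filter (fun e : μ.cells => e.1.2 = x ∧ φ e = j)).card ≤ l j + 6) ∧
      (∀ j, gcut (μ.colLen 0) μ.rowLen (∑ i ∈ range j, l i) ≤
        (univ.filter (fun e : μ.cells => φ e < j)).card + 6 * j) ∧
      (∀ j, μ.cells.card ≤ ∑ i ∈ range j, l i →
        (univ.filter (fun e : μ.cells => φ e < j)).card = μ.cells.card) := by
  classical
  set m := μ.colLen 0 with hmdef
  set N := μ.rowLen 0 with hNdef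
  set lam := μ.rowLen with hlam
  have hm : ∀ i, m ≤ i → lam i = 0 := by
    intro i hi
    by_contra hne
    have h1 : (i, 0) ∈ μ := YoungDiagram.mem_iff_lt_rowLen.mpr (Nat.pos_of_ne_zero hne)
    have h2 := YoungDiagram.mem_iff_lt_colLen.mp h1
    omega
  have hanti : Antitone lam := fun i j hij => μ.rowLen_anti i j hij
  have hN : ∀ i, lam i ≤ N := fun i => hanti (Nat.zero_le i)
  have hcardR : ((μ.cells.card : ℕ) : ℝ) = ((∑ i ∈ range m, lam i : ℕ) : ℝ) := by
    have h1 := cell_sum μ (fun _ => (1 : ℝ))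
    rw [Finset.sum_const, nsmul_eq_mul, mul_one] at h1
    rw [h1, Nat.cast_sum]
    apply Finset.sum_congr rfl
    intro i _
    have h9 : (range N).filter (fun x => x < lam i) = range (lam i) := by
      ext x
      have := hN i
      simp only [Finset.mem_filter, Finset.mem_range]
      omega
    rw [← Finset.sum_filter, Finset.sum_const, nsmul_eq_mul, h9, Finset.card_range, mul_one]
  have hcard : μ.cells.card = ∑ i ∈ range m, lam i := by exact_mod_cast hcardR
  obtain ⟨T, Y, hY0, hY1, hYr, hYc, hYt⟩ := real_groups m N lam hanti hm hN l hl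
  have hYz : ∀ i x j, i < m → x < N → ¬ x < lam i → j < T → Y i x j = 0 := by
    intro i x j hi hx hxl hj
    have h1 := hY1 i x hi hx
    rw [if_neg hxl, Finset.sum_eq_zero_iff_of_nonneg (fun j _ => hY0 i x j)] at h1
    exact h1 j (Finset.mem_range.mpr hj)
  -- the assignment polytope
  set y : μ.cells × Fin T → ℝ := fun p => Y p.1.1.1 p.1.1.2 p.2.1 with hy
  have hy0 : ∀ p, 0 ≤ y p := fun p => hY0 _ _ _
  have hy1 : ∀ e, ∑ j, y (e, j) = 1 := by
    intro e
    obtain ⟨a, b, c⟩ := cell_lt μ e.1 e.2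
    simp only [hy]
    rw [Fin.sum_univ_eq_sum_range (fun j => Y e.1.1 e.1.2 j) T, hY1 _ _ a b]
    rw [if_pos c]
  set S : ((Fin m × Fin T) ⊕ ((Fin N × Fin T) ⊕ Fin T)) → Finset (μ.cells × Fin T) :=
    fun r => match r with
    | Sum.inl (i, j) => univ.filter (fun p => p.1.1.1 = i.1 ∧ p.2 = j)
    | Sum.inr (Sum.inl (x, j)) => univ.filter (fun p => p.1.1.2 = x.1 ∧ p.2 = j)
    | Sum.inr (Sum.inr j) => univ.filter (fun p => True ∧ p.2 = j) with hS
  have hS3 : ∀ p, (univ.filter (fun r => p ∈ S r)).card ≤ 3 := by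
    rintro ⟨e, j⟩
    obtain ⟨a, b, c⟩ := cell_lt μ e.1 e.2
    refine le_trans (Finset.card_le_card (t := {Sum.inl (⟨e.1.1, a⟩, j),
      Sum.inr (Sum.inl (⟨e.1.2, b⟩, j)), Sum.inr (Sum.inr j)}) ?_) Finset.card_le_three
    intro r hr
    rw [Finset.mem_filter] at hr
    have hr2 := hr.2
    rcases r with ⟨i, j'⟩ | ⟨x, j'⟩ | j'
    · simp only [hS, Finset.mem_filter, Finset.mem_univ, true_and] at hr2
      obtain ⟨h1, h2⟩ := hr2
      subst h2
      simp only [Finset.mem_insert, Sum.inl.injEq, Prod.mk.injEq, Finset.mem_singleton,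
        reduceCtorEq, or_false, and_true]
      exact Fin.ext h1.symm
    · simp only [hS, Finset.mem_filter, Finset.mem_univ, true_and] at hr2
      obtain ⟨h1, h2⟩ := hr2
      subst h2
      simp only [Finset.mem_insert, Sum.inr.injEq, Sum.inl.injEq, Prod.mk.injEq,
        Finset.mem_singleton, reduceCtorEq, or_false, false_or, and_true]
      exact Fin.ext h1.symm
    · simp only [hS, Finset.mem_filter, Finset.mem_univ, true_and] at hr2
      subst hr2
      simp
  obtain ⟨φ, hφ0, hφ⟩ := bf_round S hS3 _ y le_rfl hy0 hy1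
  have hφT : ∀ e, (φ e).1 < T := fun e => (φ e).2
  -- the three families
  have hrowsum : ∀ (i : Fin m) (j : Fin T), ∑ p ∈ S (Sum.inl (i, j)), y p ≤ l j := by
    intro i j
    have e1 : ∑ p ∈ S (Sum.inl (i, j)), y p =
        ∑ e : μ.cells, if e.1.1 = i.1 then y (e, j) else 0 :=
      sum_pairs (fun e : μ.cells => e.1.1 = i.1) j y
    rw [e1]
    have e2 : (∑ e : μ.cells, if e.1.1 = i.1 then y (e, j) else 0) =
        ∑ v ∈ μ.cells, if v.1 = i.1 then Y v.1 v.2 j.1 else 0 :=
      Finset.sum_coe_sort μ.cells (fun v => if v.1 = i.1 then Y v.1 v.2 j.1 else 0)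
    rw [e2, cell_sum, Finset.sum_eq_single i.1]
    · refine le_trans ?_ (hYr i.1 j.1 i.2)
      apply Finset.sum_le_sum
      intro x _
      have := hY0 i.1 x j.1
      split_ifs <;> first | exact le_rfl | exact this
    · intro i' _ hne
      apply Finset.sum_eq_zero
      intro x _
      simp [hne]
    · intro h
      exact absurd (Finset.mem_range.mpr i.2) h
  have hcolsum : ∀ (x : Fin N) (j : Fin T), ∑ p ∈ S (Sum.inr (Sum.inl (x, j))), y p ≤ l j := by
    intro x j
    have e1 : ∑ p ∈ S (Sum.inr (Sum.inl (x, j))), y p =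
        ∑ e : μ.cells, if e.1.2 = x.1 then y (e, j) else 0 :=
      sum_pairs (fun e : μ.cells => e.1.2 = x.1) j y
    rw [e1]
    have e2 : (∑ e : μ.cells, if e.1.2 = x.1 then y (e, j) else 0) =
        ∑ v ∈ μ.cells, if v.2 = x.1 then Y v.1 v.2 j.1 else 0 :=
      Finset.sum_coe_sort μ.cells (fun v => if v.2 = x.1 then Y v.1 v.2 j.1 else 0)
    rw [e2, cell_sum, Finset.sum_comm, Finset.sum_eq_single x.1]
    · refine le_trans ?_ (hYc x.1 j.1 x.2)
      apply Finset.sum_le_sum
      intro i _
      have := hY0 i x.1 j.1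
      split_ifs <;> first | exact le_rfl | exact this
    · intro x' _ hne
      apply Finset.sum_eq_zero
      intro i _
      simp [hne]
    · intro h
      exact absurd (Finset.mem_range.mpr x.2) h
  have htotsum : ∀ (j : Fin T), ∑ p ∈ S (Sum.inr (Sum.inr j)), y p =
      ∑ i ∈ range m, ∑ x ∈ range N, Y i x j.1 := by
    intro j
    have e1 : ∑ p ∈ S (Sum.inr (Sum.inr j)), y p =
        ∑ e : μ.cells, if True then y (e, j) else 0 :=
      sum_pairs (fun _ : μ.cells => True) j y
    rw [e1]
    simp only [if_true]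
    have e2 : (∑ e : μ.cells, y (e, j)) = ∑ v ∈ μ.cells, Y v.1 v.2 j.1 :=
      Finset.sum_coe_sort μ.cells (fun v => Y v.1 v.2 j.1)
    rw [e2, cell_sum]
    apply Finset.sum_congr rfl
    intro i hi
    rw [Finset.mem_range] at hi
    apply Finset.sum_congr rfl
    intro x hx
    rw [Finset.mem_range] at hx
    split_ifs with h
    · rfl
    · exact (hYz i x j.1 hi hx h j.2).symm
  refine ⟨fun e => (φ e).1, ?_, ?_, ?_, ?_⟩
  · intro i j
    by_cases hij : i < m ∧ j < T
    · obtain ⟨hi, hj⟩ := hij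
      have h1 := hφ (Sum.inl (⟨i, hi⟩, ⟨j, hj⟩))
      have h2 := hrowsum ⟨i, hi⟩ ⟨j, hj⟩
      rw [abs_le] at h1
      have h3 : (univ.filter (fun e : μ.cells => e.1.1 = i ∧ (φ e).1 = j)) =
          univ.filter (fun e => (e, φ e) ∈ S (Sum.inl (⟨i, hi⟩, ⟨j, hj⟩))) := by
        ext e
        simp only [hS, Finset.mem_filter, Finset.mem_univ, true_and, Fin.ext_iff]
      rw [h3]
      have h4 : ((univ.filter (fun e => (e, φ e) ∈ S (Sum.inl (⟨i, hi⟩, ⟨j, hj⟩)))).card : ℝ) ≤
          ((l j + 6 : ℕ) : ℝ) := by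
        push_cast
        simp only at h2
        linarith [h1.2]
      exact_mod_cast h4
    · have h3 : (univ.filter (fun e : μ.cells => e.1.1 = i ∧ (φ e).1 = j)) = ∅ := by
        rw [Finset.filter_eq_empty_iff]
        rintro e _ ⟨h1, h2⟩
        obtain ⟨a, b, c⟩ := cell_lt μ e.1 e.2
        exact hij ⟨by omega, by have := hφT e; omega⟩
      rw [h3]
      simp
  · intro x j
    by_cases hij : x < N ∧ j < T
    · obtain ⟨hi, hj⟩ := hij
      have h1 := hφ (Sum.inr (Sum.inl (⟨x, hi⟩, ⟨j, hj⟩)))
      have h2 := hcolsum ⟨x, hi⟩ ⟨j, hj⟩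
      rw [abs_le] at h1
      have h3 : (univ.filter (fun e : μ.cells => e.1.2 = x ∧ (φ e).1 = j)) =
          univ.filter (fun e => (e, φ e) ∈ S (Sum.inr (Sum.inl (⟨x, hi⟩, ⟨j, hj⟩)))) := by
        ext e
        simp only [hS, Finset.mem_filter, Finset.mem_univ, true_and, Fin.ext_iff]
      rw [h3]
      have h4 : ((univ.filter (fun e => (e, φ e) ∈
          S (Sum.inr (Sum.inl (⟨x, hi⟩, ⟨j, hj⟩))))).card : ℝ) ≤ ((l j + 6 : ℕ) : ℝ) := by
        push_cast
        simp only at h2
        linarith [h1.2]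
      exact_mod_cast h4
    · have h3 : (univ.filter (fun e : μ.cells => e.1.2 = x ∧ (φ e).1 = j)) = ∅ := by
        rw [Finset.filter_eq_empty_iff]
        rintro e _ ⟨h1, h2⟩
        obtain ⟨a, b, c⟩ := cell_lt μ e.1 e.2
        exact hij ⟨by omega, by have := hφT e; omega⟩
      rw [h3]
      simp
  · intro j
    by_cases hj : j ≤ T
    · have h1 : ∀ j' ∈ range j, (∑ i ∈ range m, ∑ x ∈ range N, Y i x j') ≤
          ((univ.filter (fun e : μ.cells => (φ e).1 = j')).card : ℝ) + 6 := by
        intro j' hj'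
        rw [Finset.mem_range] at hj'
        have hjT : j' < T := by omega
        have h2 := hφ (Sum.inr (Sum.inr ⟨j', hjT⟩))
        rw [htotsum ⟨j', hjT⟩, abs_le] at h2
        have h3 : (univ.filter (fun e : μ.cells => (φ e).1 = j')) =
            univ.filter (fun e => (e, φ e) ∈ S (Sum.inr (Sum.inr ⟨j', hjT⟩))) := by
          ext e
          simp only [hS, Finset.mem_filter, Finset.mem_univ, true_and, Fin.ext_iff]
        rw [h3]
        linarith [h2.1]
      have h2 := Finset.sum_le_sum h1
      have h3 := (hYt j).trans h2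
      rw [Finset.sum_add_distrib, Finset.sum_const, Finset.card_range, nsmul_eq_mul] at h3
      have h4 : (univ.filter (fun e : μ.cells => (φ e).1 < j)).card =
          ∑ j' ∈ range j, (univ.filter (fun e : μ.cells => (φ e).1 = j')).card := by
        have hmap : ∀ e ∈ univ.filter (fun e : μ.cells => (φ e).1 < j), (φ e).1 ∈ range j := by
          intro e he
          rw [Finset.mem_filter] at he
          exact Finset.mem_range.mpr he.2
        rw [Finset.card_eq_sum_card_fiberwise hmap]
        apply Finset.sum_congr rfl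
        intro j' hj'
        rw [Finset.mem_range] at hj'
        congr 1
        ext e
        simp only [Finset.mem_filter, Finset.mem_univ, true_and]
        constructor
        · rintro ⟨_, h⟩; exact h
        · intro h; exact ⟨by omega, h⟩
      rw [h4]
      have h5 : ((gcut m lam (∑ i ∈ range j, l i) : ℕ) : ℝ) ≤
          ((∑ j' ∈ range j, (univ.filter (fun e : μ.cells => (φ e).1 = j')).card + 6 * j : ℕ) :
            ℝ) := by
        push_cast
        linarith
      exact_mod_cast h5
    · have h3 : (univ.filter (fun e : μ.cells => (φ e).1 < j)) = univ := by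
        rw [Finset.filter_eq_self]
        intro e _
        have := hφT e
        omega
      rw [h3, Finset.card_univ, Fintype.card_coe, hcard]
      exact (gcut_le_total m lam _).trans (Nat.le_add_right _ _)
  · intro j hj
    have hall : ∀ e : μ.cells, (φ e).1 < j := by
      intro e
      by_contra hcon
      push Not at hcon
      have hjT : j ≤ T := hcon.trans (hφT e).le
      have h1 : (gcut m lam (∑ i ∈ range j, l i) : ℝ) ≤ _ := hYt j
      have h2 : μ.cells.card ≤ gcut m lam (∑ i ∈ range j, l i) := by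
        obtain ⟨d, hd⟩ := Nat.exists_eq_add_of_le hj
        rw [hd]
        refine le_trans ?_ (gcut_mono m lam _ d)
        apply gcut_ge
        rw [hcard]
      have h3 : ((μ.cells.card : ℕ) : ℝ) ≤
          ∑ j' ∈ range j, ∑ i ∈ range m, ∑ x ∈ range N, Y i x j' :=
        le_trans (by exact_mod_cast h2) h1
      -- convert the prefix total into a sum over cells
      have h4 : ∑ j' ∈ range j, ∑ i ∈ range m, ∑ x ∈ range N, Y i x j' =
          ∑ e : μ.cells, ∑ j' ∈ range j, Y e.1.1 e.1.2 j' := by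
        rw [Finset.sum_comm (s := (univ : Finset μ.cells))]
        apply Finset.sum_congr rfl
        intro j' hj'
        rw [Finset.mem_range] at hj'
        have e2 : (∑ e : μ.cells, Y e.1.1 e.1.2 j') = ∑ v ∈ μ.cells, Y v.1 v.2 j' :=
          Finset.sum_coe_sort μ.cells (fun v => Y v.1 v.2 j')
        rw [e2, cell_sum]
        apply Finset.sum_congr rfl
        intro i hi
        rw [Finset.mem_range] at hi
        apply Finset.sum_congr rfl
        intro x hx
        rw [Finset.mem_range] at hx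
        split_ifs with h
        · rfl
        · exact hYz i x j' hi hx h (by omega)
      have h5 : ∀ e' : μ.cells, ∑ j' ∈ range j, Y e'.1.1 e'.1.2 j' ≤ 1 := by
        intro e'
        obtain ⟨a, b, c⟩ := cell_lt μ e'.1 e'.2
        have h6 := hY1 _ _ a b
        rw [if_pos c] at h6
        rw [← h6]
        exact Finset.sum_le_sum_of_subset_of_nonneg (Finset.range_subset_range.mpr hjT)
          (fun j' _ _ => hY0 _ _ _)
      have h6 : ∑ j' ∈ range j, Y e.1.1 e.1.2 j' < 1 := by
        obtain ⟨a, b, c⟩ := cell_lt μ e.1 e.2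
        have h7 := hY1 _ _ a b
        rw [if_pos c] at h7
        have h8 := hφ0 e
        simp only [hy] at h8
        rw [← h7]
        apply Finset.sum_lt_sum_of_subset (Finset.range_subset_range.mpr hjT)
          (i := (φ e).1)
        · exact Finset.mem_range.mpr (hφT e)
        · rw [Finset.mem_range]; omega
        · exact h8
        · intro j' _ _
          exact hY0 _ _ _
      have h7 : ∑ e' : μ.cells, ∑ j' ∈ range j, Y e'.1.1 e'.1.2 j' <
          ∑ _e' : μ.cells, (1 : ℝ) :=
        Finset.sum_lt_sum (fun e' _ => h5 e') ⟨e, Finset.mem_univ _, h6⟩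
      rw [Finset.sum_const, nsmul_eq_mul, mul_one, Finset.card_univ, Fintype.card_coe] at h7
      rw [h4] at h3
      linarith
    have h3 : (univ.filter (fun e : μ.cells => (φ e).1 < j)) = univ := by
      rw [Finset.filter_eq_self]
      intro e _
      exact hall e
    rw [h3, Finset.card_univ, Fintype.card_coe]

end Pool.MP_d56194_co
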