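import Mathlib
import Pool.Agent.Lib.MP_d56194_co.G.G5

set_option autoImplicit false

namespace Pool.MP_d56194_co

open Finset

/-- The structural theorem: for every sequence of group sizes `l j ≥ 1` there is a proper
colouring, the `j`-th group of colours having size `l j + 6`. -/
theorem groups (μ : YoungDiagram) (l : ℕ → ℕ) (hl : ∀ j, 1 ≤ l j) :
    ∃ (c : ℕ × ℕ → ℕ) (P : ℕ → ℕ),
      (∀ a ∈ μ.cells, ∀ b ∈ μ.cells, a ≠ b → (a.1 = b.1 ∨ a.2 = b.2) → c a ≠ c b) ∧
      (∀ j, gcut (μ.colLen 0) μ.rowLen (∑ i ∈ range j, l i) ≤ P j + 6 * j) ∧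
      (∀ j, μ.cells.card ≤ ∑ i ∈ range j, l i → P j = μ.cells.card) ∧
      (∀ j, P j ≤ P (j + 1)) ∧
      (∀ j r, r ≤ l j + 6 → (l j + 6) * P j + r * (P (j + 1) - P j) ≤
        (l j + 6) *
          (μ.cells.filter (fun v => c v < (∑ i ∈ range j, (l i + 6)) + r)).card) := by
  classical
  obtain ⟨φ, hrow, hcol, hg, hfull⟩ := int_groups μ l hl
  set C : ℕ → ℕ := fun j => ∑ i ∈ range j, (l i + 6) with hC
  have hCs : ∀ j, C (j + 1) = C j + (l j + 6) := by
    intro j
    simp only [hC]
    rw [Finset.sum_range_succ]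
  have hCmono : ∀ i j, i ≤ j → C i ≤ C j := by
    intro i j hij
    induction j, hij using Nat.le_induction with
    | base => exact le_rfl
    | succ j _ ih => rw [hCs]; omega
  have hfm : ∀ e : μ.cells, e.1.1 < μ.colLen 0 := fun e => (cell_lt μ e.1 e.2).1
  have hgm : ∀ e : μ.cells, e.1.2 < μ.rowLen 0 := fun e => (cell_lt μ e.1 e.2).2.1
  -- colour each group
  have hk : ∀ j, ∃ κ : {e : μ.cells // φ e = j} → ℕ, (∀ e, κ e < l j + 6) ∧
      (∀ e e', e.1.1.1 = e'.1.1.1 → κ e = κ e' → e = e') ∧
      (∀ e e', e.1.1.2 = e'.1.1.2 → κ e = κ e' → e = e') ∧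
      ∀ r, r ≤ l j + 6 → r * Fintype.card {e : μ.cells // φ e = j} ≤
        (l j + 6) * (univ.filter (fun e => κ e < r)).card := by
    intro j
    obtain ⟨κ, h1, h2, h3, h4⟩ := koenig_sorted
      (fun e : {e : μ.cells // φ e = j} => (⟨e.1.1.1, hfm e.1⟩ : Fin (μ.colLen 0)))
      (fun e : {e : μ.cells // φ e = j} => (⟨e.1.1.2, hgm e.1⟩ : Fin (μ.rowLen 0)))
      (l j + 6)
      (by
        intro i
        refine le_trans ?_ (hrow i.1 j)
        apply Finset.card_le_card_of_injOn (fun e => e.1)
        · intro e he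
          rw [Finset.mem_coe, Finset.mem_filter] at he
          rw [Finset.mem_coe, Finset.mem_filter]
          exact ⟨Finset.mem_univ _, congrArg Fin.val he.2, e.2⟩
        · intro e _ e' _ h
          exact Subtype.ext h)
      (by
        intro i
        refine le_trans ?_ (hcol i.1 j)
        apply Finset.card_le_card_of_injOn (fun e => e.1)
        · intro e he
          rw [Finset.mem_coe, Finset.mem_filter] at he
          rw [Finset.mem_coe, Finset.mem_filter]
          exact ⟨Finset.mem_univ _, congrArg Fin.val he.2, e.2⟩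
        · intro e _ e' _ h
          exact Subtype.ext h)
    exact ⟨κ, h1, fun e e' h => h2 e e' (Fin.ext h), fun e e' h => h3 e e' (Fin.ext h), h4⟩
  choose κ hκ1 hκ2 hκ3 hκ4 using hk
  set c : ℕ × ℕ → ℕ := fun v => if h : v ∈ μ.cells then
    C (φ ⟨v, h⟩) + κ (φ ⟨v, h⟩) ⟨⟨v, h⟩, rfl⟩ else 0 with hc
  have hcval : ∀ (e : μ.cells) (j : ℕ) (h : φ e = j), c e.1 = C j + κ j ⟨e, h⟩ := by
    intro e j h
    subst h
    simp only [hc]
    rw [dif_pos e.2]
  -- equal colours lie in one group
  have hgrp : ∀ e e' : μ.cells, c e.1 = c e'.1 → φ e = φ e' := by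
    intro e e' h
    rw [hcval e _ rfl, hcval e' _ rfl] at h
    have h1 := hκ1 (φ e) ⟨e, rfl⟩
    have h2 := hκ1 (φ e') ⟨e', rfl⟩
    rcases lt_trichotomy (φ e) (φ e') with hlt | heq | hgt
    · exfalso
      have h3 := hCmono (φ e + 1) (φ e') hlt
      rw [hCs] at h3
      omega
    · exact heq
    · exfalso
      have h3 := hCmono (φ e' + 1) (φ e) hgt
      rw [hCs] at h3
      omega
  set P : ℕ → ℕ := fun j => (univ.filter (fun e : μ.cells => φ e < j)).card with hP
  have hPs : ∀ j, P (j + 1) = P j + Fintype.card {e : μ.cells // φ e = j} := by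
    intro j
    simp only [hP]
    rw [Fintype.card_subtype, ← Finset.card_union_of_disjoint]
    · congr 1
      ext e
      simp only [Finset.mem_filter, Finset.mem_univ, true_and, Finset.mem_union]
      omega
    · rw [Finset.disjoint_filter]
      intro e _ h1 h2
      omega
  refine ⟨c, P, ?_, hg, hfull, ?_, ?_⟩
  · intro a ha b hb hne hor heq
    have h1 := hgrp ⟨a, ha⟩ ⟨b, hb⟩ heq
    have e1 := hcval ⟨a, ha⟩ _ h1
    have e2 := hcval ⟨b, hb⟩ _ rfl
    simp only at e1 e2
    rw [heq, e2] at e1
    have h2 : κ (φ ⟨b, hb⟩) ⟨⟨a, ha⟩, h1⟩ = κ (φ ⟨b, hb⟩) ⟨⟨b, hb⟩, rfl⟩ := by omega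
    rcases hor with h | h
    · have h3 := hκ2 _ _ _ h h2
      exact hne (congrArg (fun z => z.1.1) h3)
    · have h3 := hκ3 _ _ _ h h2
      exact hne (congrArg (fun z => z.1.1) h3)
  · intro j
    rw [hPs]
    exact Nat.le_add_right _ _
  · intro j r hr
    have e1 : P (j + 1) - P j = Fintype.card {e : μ.cells // φ e = j} := by
      rw [hPs]; omega
    rw [e1]
    have h1 := hκ4 j r hr
    have h2 : P j + (univ.filter (fun e => κ j e < r)).card ≤
        (μ.cells.filter (fun v => c v < C j + r)).card := by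
      rw [card_filter_coe]
      have h3 : (univ.filter (fun e => κ j e < r)).card =
          ((univ.filter (fun e => κ j e < r)).image (fun e => e.1)).card := by
        rw [Finset.card_image_of_injective _ Subtype.val_injective]
      rw [h3]
      simp only [hP]
      rw [← Finset.card_union_of_disjoint]
      · apply Finset.card_le_card
        intro e he
        rw [Finset.mem_union] at he
        rw [Finset.mem_filter]
        refine ⟨Finset.mem_univ _, ?_⟩
        rcases he with he | he
        · rw [Finset.mem_filter] at he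
          have h4 := hκ1 (φ e) ⟨e, rfl⟩
          rw [hcval e _ rfl]
          have h5 := hCmono (φ e + 1) j he.2
          rw [hCs] at h5
          omega
        · rw [Finset.mem_image] at he
          obtain ⟨⟨e', h'⟩, he', rfl⟩ := he
          rw [Finset.mem_filter] at he'
          simp only
          rw [hcval e' j h']
          have := he'.2
          omega
      · rw [Finset.disjoint_left]
        intro e he he'
        rw [Finset.mem_filter] at he
        rw [Finset.mem_image] at he'
        obtain ⟨⟨e', h'⟩, _, rfl⟩ := he'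
        simp only at he
        omega
    calc (l j + 6) * P j + r * Fintype.card {e : μ.cells // φ e = j}
        ≤ (l j + 6) * P j + (l j + 6) * (univ.filter (fun e => κ j e < r)).card := by omega
      _ = (l j + 6) * (P j + (univ.filter (fun e => κ j e < r)).card) := by ring
      _ ≤ _ := Nat.mul_le_mul_left _ h2

end Pool.MP_d56194_co
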