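import Mathlib
import Pool.Agent.Lib.MP_d56194_co.F.F10
import Pool.Agent.Lib.MP_d56194_co.G.G6

set_option autoImplicit false

namespace Pool.MP_d56194_co

open Finset

theorem regimeA (n j r K k w s g gj gj1 Pj Pj1 G : ℝ) (hn0 : 0 ≤ n) (hj0 : 0 ≤ j)
    (hr0 : 0 ≤ r) (hK0 : 0 ≤ K) (hw0 : 0 ≤ w) (hk : k = K + 6 * j + r) (hr : r ≤ n + j + 7)
    (hK : (n + 1) * j ≤ K) (hj2 : j ^ 2 ≤ 2 * k) (hn : 2 * n ^ 2 ≤ w)
    (hn' : w < 2 * (n + 1) ^ 2) (hs : s ^ 2 = k + w) (hs40 : 40 ≤ s) (hkw : k ≤ w)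
    (h0 : (n + j + 7) * Pj + r * (Pj1 - Pj) ≤ (n + j + 7) * G)
    (hPj : gj ≤ Pj + 6 * j) (hPj1 : gj1 ≤ Pj1 + 6 * (j + 1))
    (hstep : gj + (n + 1 + j) * w ≤ gj1 + (n + 1 + j) * (K + (n + 1 + j)))
    (hsub : g ≤ gj + (6 * j + r) * w) (hlow : 2 * k * w ≤ 2 * g + k * k) :
    (s - 40) * g ≤ s * G := by
  set L := n + 1 + j with hL
  have hL0 : 0 < L := by linarith
  have hM : n + j + 7 = L + 6 := by rw [hL]; ring
  rw [hM] at h0 hr
  have hk0 : 0 ≤ k := by rw [hk]; positivity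
  -- lower bound for g
  have hg : k * w ≤ 2 * g := by
    have : k * k ≤ k * w := mul_le_mul_of_nonneg_left hkw hk0
    linarith
  -- the deficit
  have hD : (L + 6) * (g - G) ≤
      6 * j * (L + 6) * w + 6 * r * w + r * L * (K + L) + 6 * j * (L + 6) + 6 * r := by
    have e1 : (L + 6 - r) * gj ≤ (L + 6 - r) * (Pj + 6 * j) :=
      mul_le_mul_of_nonneg_left hPj (by linarith)
    have e2 : r * gj1 ≤ r * (Pj1 + 6 * (j + 1)) := mul_le_mul_of_nonneg_left hPj1 hr0
    have e3 : r * (gj + L * w) ≤ r * (gj1 + L * (K + L)) :=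
      mul_le_mul_of_nonneg_left hstep hr0
    have e4 : (L + 6) * g ≤ (L + 6) * (gj + (6 * j + r) * w) :=
      mul_le_mul_of_nonneg_left hsub (by linarith)
    clear_value L
    linarith
  -- bounds on s and n
  have hsn : s < 2 * (n + 1) := by
    by_contra hcon
    push Not at hcon
    have h1 : (2 * (n + 1)) ^ 2 ≤ s ^ 2 := by
      apply pow_le_pow_left₀ (by linarith) hcon
    have h2 : (2 * (n + 1)) ^ 2 = 2 * (2 * (n + 1) ^ 2) := by ring
    linarith
  have hn19 : 19 ≤ n := by linarith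
  have hjn : j < 2 * (n + 1) := by
    by_contra hcon
    push Not at hcon
    have h1 : (2 * (n + 1)) ^ 2 ≤ j ^ 2 := by
      apply pow_le_pow_left₀ (by linarith) hcon
    have h2 : (2 * (n + 1)) ^ 2 = 2 * (2 * (n + 1) ^ 2) := by ring
    linarith
  have hs0 : 0 ≤ s := by linarith
  have hL3 : L ≤ 3 * (n + 1) := by rw [hL]; linarith
  have hn12 : 361 ≤ n ^ 2 := by nlinarith
  have hn19n : 19 * n ≤ n ^ 2 := by nlinarith
  -- first term
  have t1 : s * (6 * j * (L + 6) * w + 6 * r * w) ≤ 12 * ((L + 6) * k * w) := by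
    have a1 : (n + 7) * (j * (L + 6) + r) ≤ (L + 6) * k := by
      have b1 : (n + 7) * r ≤ (L + 6) * r := by
        apply mul_le_mul_of_nonneg_right _ hr0
        rw [hL]; linarith
      have b2 : (n + 7) * j + r ≤ k := by rw [hk]; linarith
      have b3 : (L + 6) * ((n + 7) * j + r) ≤ (L + 6) * k :=
        mul_le_mul_of_nonneg_left b2 (by linarith)
      have b4 : (n + 7) * (j * (L + 6) + r) = (L + 6) * ((n + 7) * j + r) -
          ((L + 6) * r - (n + 7) * r) := by ring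
      rw [b4]
      linarith
    have a2 : 0 ≤ j * (L + 6) + r := by positivity
    have a3 : s * (j * (L + 6) + r) ≤ 2 * ((L + 6) * k) := by
      have b1 : s * (j * (L + 6) + r) ≤ 2 * (n + 7) * (j * (L + 6) + r) :=
        mul_le_mul_of_nonneg_right (by linarith) a2
      have b2 : 2 * (n + 7) * (j * (L + 6) + r) = 2 * ((n + 7) * (j * (L + 6) + r)) := by ring
      rw [b2] at b1
      linarith
    have a4 : s * (j * (L + 6) + r) * w ≤ 2 * ((L + 6) * k) * w :=
      mul_le_mul_of_nonneg_right a3 hw0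
    calc s * (6 * j * (L + 6) * w + 6 * r * w) = 6 * (s * (j * (L + 6) + r) * w) := by ring
      _ ≤ 6 * (2 * ((L + 6) * k) * w) := by linarith
      _ = 12 * ((L + 6) * k * w) := by ring
  have t2 : s * (r * L * (K + L)) ≤ 4 * ((L + 6) * k * w) := by
    have a1 : r * L * (K + L) ≤ (L + 6) * L * k := by
      have b1 : r * (L * K) ≤ (L + 6) * (L * K) :=
        mul_le_mul_of_nonneg_right hr (by positivity)
      have b2 : r * L * L ≤ (L + 6) * L * r := by
        have : 0 ≤ 6 * (L * r) := by positivity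
        calc r * L * L = (L + 6) * L * r - 6 * (L * r) := by ring
          _ ≤ _ := by linarith
      have b3 : (L + 6) * L * (K + r) ≤ (L + 6) * L * k :=
        mul_le_mul_of_nonneg_left (by rw [hk]; linarith) (by positivity)
      calc r * L * (K + L) = r * (L * K) + r * L * L := by ring
        _ ≤ (L + 6) * (L * K) + (L + 6) * L * r := by linarith
        _ = (L + 6) * L * (K + r) := by ring
        _ ≤ _ := b3
    have a2 : s * L ≤ 4 * w := by
      have b1 : s * L ≤ 2 * (n + 1) * (3 * (n + 1)) :=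
        mul_le_mul hsn.le hL3 hL0.le (by linarith)
      have b2 : 2 * (n + 1) * (3 * (n + 1)) = 6 * n ^ 2 + 12 * n + 6 := by ring
      rw [b2] at b1
      linarith
    have a3 : s * (r * L * (K + L)) ≤ s * ((L + 6) * L * k) :=
      mul_le_mul_of_nonneg_left a1 hs0
    have a4 : s * L * ((L + 6) * k) ≤ 4 * w * ((L + 6) * k) :=
      mul_le_mul_of_nonneg_right a2 (by positivity)
    calc s * (r * L * (K + L)) ≤ s * ((L + 6) * L * k) := a3
      _ = s * L * ((L + 6) * k) := by ring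
      _ ≤ 4 * w * ((L + 6) * k) := a4
      _ = _ := by ring
  have t3 : s * (6 * j * (L + 6) + 6 * r) ≤ (L + 6) * k * w := by
    have a1 : 6 * j * (L + 6) + 6 * r ≤ 6 * ((L + 6) * k) := by
      have b1 : 1 * r ≤ (L + 6) * r := mul_le_mul_of_nonneg_right (by linarith) hr0
      have b2 : (L + 6) * (j + r) ≤ (L + 6) * k :=
        mul_le_mul_of_nonneg_left (by rw [hk]; linarith) (by linarith)
      calc 6 * j * (L + 6) + 6 * r ≤ 6 * j * (L + 6) + 6 * ((L + 6) * r) := by linarith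
        _ = 6 * ((L + 6) * (j + r)) := by ring
        _ ≤ _ := by linarith
    have a2 : 6 * s ≤ w := by linarith
    have a3 : s * (6 * j * (L + 6) + 6 * r) ≤ s * (6 * ((L + 6) * k)) :=
      mul_le_mul_of_nonneg_left a1 hs0
    have a4 : 6 * s * ((L + 6) * k) ≤ w * ((L + 6) * k) :=
      mul_le_mul_of_nonneg_right a2 (by positivity)
    calc s * (6 * j * (L + 6) + 6 * r) ≤ s * (6 * ((L + 6) * k)) := a3
      _ = 6 * s * ((L + 6) * k) := by ring
      _ ≤ w * ((L + 6) * k) := a4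
      _ = _ := by ring
  have hD2 : s * ((L + 6) * (g - G)) ≤ 17 * ((L + 6) * k * w) := by
    have h1 := mul_le_mul_of_nonneg_left hD hs0
    have h2 : s * (6 * j * (L + 6) * w + 6 * r * w + r * L * (K + L) + 6 * j * (L + 6) +
        6 * r) = s * (6 * j * (L + 6) * w + 6 * r * w) + s * (r * L * (K + L)) +
        s * (6 * j * (L + 6) + 6 * r) := by ring
    rw [h2] at h1
    linarith
  have hD3 : (L + 6) * (s * (g - G)) ≤ (L + 6) * (40 * g) := by
    have a1 : (L + 6) * (k * w) ≤ (L + 6) * (2 * g) :=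
      mul_le_mul_of_nonneg_left hg (by linarith)
    have a2 : 0 ≤ (L + 6) * (k * w) := by positivity
    calc (L + 6) * (s * (g - G)) = s * ((L + 6) * (g - G)) := by ring
      _ ≤ 17 * ((L + 6) * k * w) := hD2
      _ = 17 * ((L + 6) * (k * w)) := by ring
      _ ≤ 20 * ((L + 6) * (k * w)) := by linarith
      _ ≤ 20 * ((L + 6) * (2 * g)) := by linarith
      _ = _ := by ring
  have := le_of_mul_le_mul_left hD3 (by linarith)
  linarith

theorem regimeB (n j K k w s g gj Pj G : ℝ) (hj0 : 0 ≤ j)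
    (hKk : k ≤ K + 6 * j + (n + j + 7)) (hKpos : 0 < K)
    (hj2 : j ^ 2 ≤ 2 * k) (hn : 2 * n ^ 2 ≤ w)
    (hs : s ^ 2 = k + w) (hs40 : 40 ≤ s) (hkw : w ≤ k) (hg0 : 0 ≤ g)
    (h0 : Pj ≤ G) (hPj : gj ≤ Pj + 6 * j) (hKg : K ≤ gj) (hmul : K * g ≤ k * gj)
    (hK6 : 6 * j ≤ K) :
    (s - 40) * g ≤ s * G := by
  have hk0 : 0 < k := by nlinarith
  have hs0 : 0 ≤ s := by linarith
  -- k G ≥ (K - 6 j) g
  have h1 : (K - 6 * j) * gj ≤ K * (gj - 6 * j) := by nlinarith
  have h2 : (K - 6 * j) * g ≤ k * G := by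
    have a1 : (K - 6 * j) * (K * g) ≤ (K - 6 * j) * (k * gj) :=
      mul_le_mul_of_nonneg_left hmul (by linarith)
    have a2 : k * ((K - 6 * j) * gj) ≤ k * (K * (gj - 6 * j)) :=
      mul_le_mul_of_nonneg_left h1 hk0.le
    have a3 : gj - 6 * j ≤ G := by linarith
    have a4 : k * K * (gj - 6 * j) ≤ k * K * G :=
      mul_le_mul_of_nonneg_left a3 (by positivity)
    have a5 : K * ((K - 6 * j) * g) ≤ K * (k * G) := by nlinarith
    exact le_of_mul_le_mul_left a5 hKpos
  -- s (13 j + n + 7) ≤ 40 k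
  have h3 : s * (13 * j + n + 7) ≤ 40 * k := by
    have a1 : s * j ≤ 2 * k := by nlinarith [sq_nonneg (s - j)]
    have a2 : s * n ≤ 2 * k := by nlinarith [sq_nonneg (s - n)]
    have a3 : s * 7 ≤ k := by nlinarith
    nlinarith
  have h4 : (k - (13 * j + n + 7)) * g ≤ k * G := by
    have : (k - (13 * j + n + 7)) * g ≤ (K - 6 * j) * g :=
      mul_le_mul_of_nonneg_right (by linarith) hg0
    linarith
  have h5 : k * ((s - 40) * g) ≤ k * (s * G) := by
    have a1 : s * ((k - (13 * j + n + 7)) * g) ≤ s * (k * G) :=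
      mul_le_mul_of_nonneg_left h4 hs0
    have a2 : s * (13 * j + n + 7) * g ≤ 40 * k * g := mul_le_mul_of_nonneg_right h3 hg0
    nlinarith
  exact le_of_mul_le_mul_left h5 hk0

end Pool.MP_d56194_co
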