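import Mathlib
import Pool.Agent.Lib.MP_d56194_co.G.G7

set_option autoImplicit false

namespace Pool.MP_d56194_co

open Finset

theorem card_le_gcut (μ : YoungDiagram) (k : ℕ) (f : Fin k → Finset (ℕ × ℕ))
    (hf : ∀ i, f i ⊆ μ.cells ∧ ∀ a ∈ f i, ∀ b ∈ f i, a ≠ b → a.1 ≠ b.1 ∧ a.2 ≠ b.2) :
    (Finset.univ.biUnion f).card ≤ gcut (μ.colLen 0) μ.rowLen k := by
  classical
  obtain ⟨a, b, hab⟩ := gcut_attained (μ.colLen 0) μ.rowLen k
  rw [hab]
  refine (cut_bound μ k a b f hf).trans ?_
  have h1 : (μ.cells.filter (fun v => a ≤ v.1 ∧ b ≤ v.2)).card =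
      ∑ i ∈ Ico a (μ.colLen 0), 1 * (μ.rowLen i - b) := by
    rw [card_cells μ (fun R X => a ≤ R ∧ b ≤ X) (μ.colLen 0) (μ.rowLen 0)
      (fun R X h => (cell_lt μ (R, X) ((YoungDiagram.mem_cells _).mpr h)).1)
      (fun R X h => (cell_lt μ (R, X) ((YoungDiagram.mem_cells _).mpr h)).2.1)]
    have e1 : ∀ R ∈ range (μ.colLen 0), ∑ X ∈ range (μ.rowLen 0),
        (if X < μ.rowLen R ∧ a ≤ R ∧ b ≤ X then 1 else 0) =
        if a ≤ R then 1 * (μ.rowLen R - b) else 0 := by
      intro R _
      by_cases hR : a ≤ R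
      · rw [if_pos hR, ← Finset.card_filter]
        have e3 : (range (μ.rowLen 0)).filter (fun X => X < μ.rowLen R ∧ a ≤ R ∧ b ≤ X) =
            Ico b (μ.rowLen R) := by
          ext X
          have h2 := μ.rowLen_anti 0 R (Nat.zero_le R)
          simp only [Finset.mem_filter, Finset.mem_range, Finset.mem_Ico]
          constructor
          · rintro ⟨_, h3, _, h4⟩; exact ⟨h4, h3⟩
          · rintro ⟨h4, h3⟩; exact ⟨by omega, h3, hR, h4⟩
        rw [e3, Nat.card_Ico, one_mul]
      · rw [if_neg hR]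
        apply Finset.sum_eq_zero
        intro X _
        rw [if_neg]
        rintro ⟨_, h2, _⟩
        exact hR h2
    rw [Finset.sum_congr rfl e1, ← Finset.sum_filter]
    apply Finset.sum_congr _ (fun _ _ => rfl)
    ext i
    simp only [Finset.mem_filter, Finset.mem_range, Finset.mem_Ico]
    tauto
  rw [h1]
  unfold ct
  apply le_of_eq
  ring

theorem main_approx (μ : YoungDiagram) :
    ∃ c : ℕ × ℕ → ℕ,
      (∀ a ∈ μ.cells, ∀ b ∈ μ.cells, a ≠ b → (a.1 = b.1 ∨ a.2 = b.2) → c a ≠ c b) ∧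
      ∀ k : ℕ, 0 < k → ∀ f : Fin k → Finset (ℕ × ℕ),
        (∀ i, f i ⊆ μ.cells ∧ ∀ a ∈ f i, ∀ b ∈ f i, a ≠ b → a.1 ≠ b.1 ∧ a.2 ≠ b.2) →
        ∀ g : Finset (ℕ × ℕ),
          (g ⊆ μ.cells ∧ ∀ a ∈ g, ∀ b ∈ g, a ≠ b → a.1 ≠ b.1 ∧ a.2 ≠ b.2) →
          (1 - 40 / Real.sqrt ((k : ℝ) + (g.card : ℝ))) * ((Finset.univ.biUnion f).card : ℝ) ≤
            ((μ.cells.filter (fun x => c x < k)).card : ℝ) := by
  classical
  set m := μ.colLen 0 with hmdef
  set lam := μ.rowLen with hlam
  have hm : ∀ i, m ≤ i → lam i = 0 := by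
    intro i hi
    by_contra hne
    have h1 : (i, 0) ∈ μ := YoungDiagram.mem_iff_lt_rowLen.mpr (Nat.pos_of_ne_zero hne)
    have h2 := YoungDiagram.mem_iff_lt_colLen.mp h1
    omega
  have hanti : Antitone lam := fun i j hij => μ.rowLen_anti i j hij
  set w := gcut m lam 1 with hw
  set n := Nat.sqrt (w / 2) with hn
  have hn1 : 2 * (n * n) ≤ w := by
    have := Nat.sqrt_le (w / 2)
    rw [← hn] at this
    omega
  have hn2 : w < 2 * ((n + 1) * (n + 1)) := by
    have h2 := Nat.lt_succ_sqrt (w / 2)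
    rw [← hn] at h2
    simp only [Nat.succ_eq_add_one] at h2
    omega
  set l : ℕ → ℕ := fun j => n + 1 + j with hl
  obtain ⟨c, P, hprop, hg, hfull, hPmono, hcount⟩ := groups μ l (fun j => by simp only [hl]; omega)
  refine ⟨c, hprop, ?_⟩
  set K : ℕ → ℕ := fun j => ∑ i ∈ range j, l i with hK
  have hKs : ∀ j, K (j + 1) = K j + (n + 1 + j) := by
    intro j
    simp only [hK]
    rw [Finset.sum_range_succ]
  have hK2 : ∀ j, 2 * K j = j * (2 * n + 1 + j) := by
    intro j
    induction j with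
    | zero => simp [hK]
    | succ j ih =>
      rw [hKs, Nat.mul_add, ih]
      ring
  have hCK : ∀ j, ∑ i ∈ range j, (l i + 6) = K j + 6 * j := by
    intro j
    rw [Finset.sum_add_distrib]
    simp only [hK, Finset.sum_const, Finset.card_range, smul_eq_mul]
    ring
  intro k hk f hf g hgI
  have hfk := card_le_gcut μ k f hf
  have hgw : g.card ≤ w := by
    have := card_le_gcut μ 1 (fun _ => g) (fun _ => hgI)
    simpa using this
  set G := (μ.cells.filter (fun x => c x < k)).card with hG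
  set U := (Finset.univ.biUnion f).card with hU
  have hG0 : (0 : ℝ) ≤ G := Nat.cast_nonneg _
  have hU0 : (0 : ℝ) ≤ U := Nat.cast_nonneg _
  have hk0 : (0 : ℝ) < k := by exact_mod_cast hk
  -- the trivial range
  have hx0 : (0 : ℝ) < (k : ℝ) + (g.card : ℝ) := by positivity
  set s1 := Real.sqrt ((k : ℝ) + (g.card : ℝ)) with hs1
  have hs1pos : 0 < s1 := Real.sqrt_pos.mpr hx0
  by_cases hs40' : s1 < 40
  · have h1 : 1 - 40 / s1 ≤ 0 := by
      have : 1 ≤ 40 / s1 := by
        rw [le_div_iff₀ hs1pos]; linarith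
      linarith
    have h2 := mul_nonpos_of_nonpos_of_nonneg h1 hU0
    linarith
  push Not at hs40'
  -- replace `g` by `w`
  set s := Real.sqrt ((k : ℝ) + (w : ℝ)) with hs
  have hs1s : s1 ≤ s := by
    apply Real.sqrt_le_sqrt
    have : (g.card : ℝ) ≤ w := by exact_mod_cast hgw
    linarith
  have hs40 : 40 ≤ s := le_trans hs40' hs1s
  have hs2 : s ^ 2 = (k : ℝ) + w := Real.sq_sqrt (by positivity)
  set gk := gcut m lam k with hgk
  -- it suffices to prove the bound for `gk`
  suffices hmain : (s - 40) * (gk : ℝ) ≤ s * (G : ℝ) by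
    have h1 : 40 / s ≤ 40 / s1 := div_le_div_of_nonneg_left (by norm_num) hs1pos hs1s
    have h2 : (1 - 40 / s1) * (U : ℝ) ≤ (1 - 40 / s) * (gk : ℝ) := by
      have a1 : (U : ℝ) ≤ gk := by exact_mod_cast hfk
      have a2 : 0 ≤ 1 - 40 / s1 := by
        have : 40 / s1 ≤ 1 := by rw [div_le_one hs1pos]; exact hs40'
        linarith
      exact mul_le_mul (by linarith) a1 hU0 (by linarith)
    have h3 : (1 - 40 / s) * (gk : ℝ) ≤ G := by
      have hspos : 0 < s := by linarith
      have : s * ((1 - 40 / s) * (gk : ℝ)) ≤ s * (G : ℝ) := by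
        have e : s * ((1 - 40 / s) * (gk : ℝ)) = (s - 40) * gk := by
          field_simp
        rw [e]; exact hmain
      exact le_of_mul_le_mul_left this hspos
    exact h2.trans h3
  -- locate the group of `k`
  have hex : ∃ j, k < K j + 6 * j := by
    refine ⟨k + 1, ?_⟩
    omega
  set j' := Nat.find hex with hj'
  have hj'spec : k < K j' + 6 * j' := Nat.find_spec hex
  have hj'pos : j' ≠ 0 := by
    intro h
    rw [h] at hj'spec
    simp [hK] at hj'spec
  obtain ⟨j, hj⟩ := Nat.exists_eq_succ_of_ne_zero hj'pos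
  have hjle : K j + 6 * j ≤ k := by
    have : ¬ k < K j + 6 * j := Nat.find_min hex (by omega)
    omega
  have hjlt : k < K (j + 1) + 6 * (j + 1) := by
    have e : j' = j + 1 := hj
    rw [← e]; exact hj'spec
  obtain ⟨r, hr⟩ := Nat.exists_eq_add_of_le hjle
  have hrlt : r < l j + 6 := by
    rw [hKs] at hjlt
    simp only [hl]
    omega
  have hcnt := hcount j r hrlt.le
  rw [hCK, ← hr, ← hG] at hcnt
  have hPG : P j ≤ G := by
    have h1 := hcount j r hrlt.le
    rw [hCK, ← hr, ← hG] at h1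
    have h2 : (l j + 6) * P j ≤ (l j + 6) * G := by omega
    exact Nat.le_of_mul_le_mul_left h2 (by omega)
  have hgkle : gk ≤ ∑ i ∈ range m, lam i := gcut_le_total m lam k
  have hcard : μ.cells.card = ∑ i ∈ range m, lam i := by
    have h1 := card_cells μ (fun _ _ => True) (μ.colLen 0) (μ.rowLen 0)
      (fun R X h => (cell_lt μ (R, X) ((YoungDiagram.mem_cells _).mpr h)).1)
      (fun R X h => (cell_lt μ (R, X) ((YoungDiagram.mem_cells _).mpr h)).2.1)
    rw [Finset.filter_true] at h1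
    rw [h1]
    apply Finset.sum_congr rfl
    intro i _
    simp only [and_true]
    rw [← Finset.card_filter]
    have h9 : (range (μ.rowLen 0)).filter (fun x => x < μ.rowLen i) = range (μ.rowLen i) := by
      ext x
      have := μ.rowLen_anti 0 i (Nat.zero_le i)
      simp only [Finset.mem_filter, Finset.mem_range]
      omega
    rw [h9, Finset.card_range]
  have hj2 : ((j : ℝ)) ^ 2 ≤ 2 * k := by
    have h1 : j * j ≤ 2 * k := by
      have := hK2 j
      have e : j * (2 * n + 1 + j) = 2 * (n * j) + j + j * j := by ring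
      omega
    have h2 : ((j * j : ℕ) : ℝ) ≤ ((2 * k : ℕ) : ℝ) := by exact_mod_cast h1
    push_cast at h2
    nlinarith
  have hn1R : 2 * (n : ℝ) ^ 2 ≤ w := by
    have h2 : ((2 * (n * n) : ℕ) : ℝ) ≤ (w : ℝ) := by exact_mod_cast hn1
    push_cast at h2
    nlinarith
  have hn2R : (w : ℝ) < 2 * ((n : ℝ) + 1) ^ 2 := by
    have h2 : (w : ℝ) < ((2 * ((n + 1) * (n + 1)) : ℕ) : ℝ) := by exact_mod_cast hn2
    push_cast at h2
    nlinarith
  have hrR : (k : ℝ) = K j + 6 * j + r := by
    have := hr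
    have h2 : ((k : ℕ) : ℝ) = ((K j + 6 * j + r : ℕ) : ℝ) := by exact_mod_cast this
    rw [h2]; push_cast; ring
  have hrltR : (r : ℝ) ≤ n + j + 7 := by
    have h1 : r ≤ n + j + 7 := by
      simp only [hl] at hrlt
      omega
    have h2 : ((r : ℕ) : ℝ) ≤ ((n + j + 7 : ℕ) : ℝ) := by exact_mod_cast h1
    push_cast at h2
    exact h2
  have hKjn : ((n : ℝ) + 1) * j ≤ K j := by
    have h1 : (n + 1) * j ≤ K j := by
      have := hK2 j
      have e : j * (2 * n + 1 + j) = 2 * (n * j) + j + j * j := by ring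
      have e2 : (n + 1) * j = n * j + j := by ring
      have e3 : j ≤ j * j := by
        rcases Nat.eq_zero_or_pos j with h | h
        · simp [h]
        · exact Nat.le_mul_of_pos_left j h
      omega
    have h2 : (((n + 1) * j : ℕ) : ℝ) ≤ ((K j : ℕ) : ℝ) := by exact_mod_cast h1
    push_cast at h2
    exact h2
  have hgj : ((gcut m lam (K j) : ℕ) : ℝ) ≤ P j + 6 * j := by
    have h2 : ((gcut m lam (K j) : ℕ) : ℝ) ≤ ((P j + 6 * j : ℕ) : ℝ) := by
      exact_mod_cast hg j
    push_cast at h2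
    exact h2
  by_cases hkw : k ≤ w
  · -- regime A
    have hgj1 : ((gcut m lam (K (j + 1)) : ℕ) : ℝ) ≤ P (j + 1) + 6 * (j + 1) := by
      have h2 : ((gcut m lam (K (j + 1)) : ℕ) : ℝ) ≤ ((P (j + 1) + 6 * (j + 1) : ℕ) : ℝ) := by
        exact_mod_cast hg (j + 1)
      push_cast at h2
      exact h2
    have h0 : ((n : ℝ) + j + 7) * P j + r * ((P (j + 1) : ℝ) - P j) ≤ ((n : ℝ) + j + 7) * G := by
      have h1 : (((l j + 6) * P j + r * (P (j + 1) - P j) : ℕ) : ℝ) ≤
          (((l j + 6) * G : ℕ) : ℝ) := by exact_mod_cast hcnt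
      rw [Nat.cast_add, Nat.cast_mul, Nat.cast_mul, Nat.cast_mul,
        Nat.cast_sub (hPmono j)] at h1
      have e : ((l j + 6 : ℕ) : ℝ) = (n : ℝ) + j + 7 := by
        simp only [hl]
        push_cast
        ring
      rw [e] at h1
      exact h1
    have hstep : ((gcut m lam (K j) : ℕ) : ℝ) + ((n : ℝ) + 1 + j) * w ≤
        gcut m lam (K (j + 1)) + ((n : ℝ) + 1 + j) * (K j + ((n : ℝ) + 1 + j)) := by
      have h1 := gcut_steps m lam hanti hm (K j) (n + 1 + j)
      rw [← hKs] at h1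
      have h2 : (((gcut m lam (K j) : ℤ) + ((n + 1 + j : ℕ) : ℤ) * gcut m lam 1 : ℤ) : ℝ) ≤
          ((gcut m lam (K (j + 1)) + ((n + 1 + j : ℕ) : ℤ) *
            ((K j : ℤ) + ((n + 1 + j : ℕ) : ℤ)) : ℤ) : ℝ) := by exact_mod_cast h1
      push_cast at h2
      rw [hw]
      linarith
    have hsub : (gk : ℝ) ≤ gcut m lam (K j) + (6 * j + r) * w := by
      have h1 := gcut_sub m lam (K j) (6 * j + r)
      have e : K j + (6 * j + r) = k := by omega
      rw [e] at h1
      have h2 : ((gcut m lam k : ℕ) : ℝ) ≤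
          ((gcut m lam (K j) + (6 * j + r) * gcut m lam 1 : ℕ) : ℝ) := by exact_mod_cast h1
      push_cast at h2
      exact h2
    have hlow : 2 * (k : ℝ) * w ≤ 2 * gk + k * k := by
      have h1 := gcut_lower m lam hanti hm k
      have h2 : ((2 * k * gcut m lam 1 : ℕ) : ℝ) ≤ ((2 * gcut m lam k + k * k : ℕ) : ℝ) := by
        exact_mod_cast h1
      push_cast at h2
      exact h2
    have hkwR : (k : ℝ) ≤ w := by exact_mod_cast hkw
    exact regimeA n j r (K j) k w s gk (gcut m lam (K j)) (gcut m lam (K (j + 1))) (P j)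
      (P (j + 1)) G (Nat.cast_nonneg _) (Nat.cast_nonneg _) (Nat.cast_nonneg _)
      (Nat.cast_nonneg _) (Nat.cast_nonneg _) hrR hrltR hKjn hj2 hn1R hn2R hs2 hs40 hkwR h0
      hgj hgj1 hstep hsub hlow
  · -- regime B
    push Not at hkw
    by_cases hbig : μ.cells.card ≤ K j
    · have h1 := hfull j hbig
      have h2 : gk ≤ G := by
        rw [hcard] at h1
        omega
      have h3 : (gk : ℝ) ≤ G := by exact_mod_cast h2
      have h4 : (0 : ℝ) ≤ gk := Nat.cast_nonneg _
      have h5 : s * (gk : ℝ) ≤ s * G := mul_le_mul_of_nonneg_left h3 (by linarith)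
      have h6 : (s - 40) * (gk : ℝ) = s * gk - 40 * gk := by ring
      rw [h6]
      linarith
    · push Not at hbig
      have hKg : K j ≤ gcut m lam (K j) := by
        apply gcut_ge
        rw [← hcard]
        exact hbig.le
      have hkwR : (w : ℝ) < k := by exact_mod_cast hkw
      have hkbig : 800 < k := by
        have h1 : (40 : ℝ) ^ 2 ≤ s ^ 2 := pow_le_pow_left₀ (by norm_num) hs40 2
        have h2 : ((800 : ℕ) : ℝ) < (k : ℝ) := by
          push_cast
          linarith
        exact_mod_cast h2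
      have hmul := gcut_mul m lam (K j) k (by omega)
      have hrn : r < n + 1 + j + 6 := by
        simp only [hl] at hrlt
        exact hrlt
      have hj0 : j ≠ 0 := by
        intro h0
        rw [h0] at hr hrn
        have hK0 : K 0 = 0 := by simp [hK]
        rw [hK0] at hr
        have h1 : 794 ≤ n := by omega
        have h2 : 794 * n ≤ n * n := Nat.mul_le_mul_right _ h1
        omega
      have h12 : 12 ≤ 2 * n + 1 + j := by
        by_contra hcon
        push Not at hcon
        have h1 := hK2 j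
        have h2 : j * (2 * n + 1 + j) ≤ 11 * 11 := Nat.mul_le_mul (by omega) (by omega)
        omega
      have hK12 : 12 * j ≤ 2 * K j := by
        rw [hK2 j, mul_comm 12 j]
        exact Nat.mul_le_mul_left _ h12
      have hK6 : 12 * (j : ℝ) ≤ K j * 2 ∧ (0 : ℝ) < K j := by
        constructor
        · have h3 : ((12 * j : ℕ) : ℝ) ≤ ((2 * K j : ℕ) : ℝ) := by exact_mod_cast hK12
          push_cast at h3
          linarith
        · have : 0 < K j := by omega
          exact_mod_cast this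
      exact regimeB n j (K j) k w s gk (gcut m lam (K j)) (P j) G (Nat.cast_nonneg _)
        (by linarith) hK6.2 hj2 hn1R hs2 hs40 (by exact_mod_cast hkw.le) (Nat.cast_nonneg _)
        (by exact_mod_cast hPG) hgj (by exact_mod_cast hKg) (by exact_mod_cast hmul)
        (by linarith [hK6.1])

end Pool.MP_d56194_co
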